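import Pool.Agent.W876.Cut.Defs

/-!
Basic facts on quotients and Cantor-Bendixson ideals.
-/

namespace Pool.Agent.W876.Cut

open scoped symmDiff Cardinal
open Order

universe u v w

variable {B : Type u} [BooleanAlgebra B] {C : Type w} [BooleanAlgebra C]

theorem cb_zero : cb B (0 : Ordinal.{v}) = ⊥ := by
  unfold cb
  exact Ordinal.limitRecOn_zero ..

theorem cb_add_one (β : Ordinal.{v}) : cb B (β + 1) = nextIdeal (cb B β) := by
  unfold cb
  rw [Ordinal.limitRecOn_add_one]

theorem cb_limit' {β : Ordinal.{v}} (h : IsSuccLimit β) :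
    cb B β = ⨆ δ : Set.Iio β, cb B δ.1 := by
  unfold cb
  rw [Ordinal.limitRecOn_limit _ _ _ _ h]

theorem le_nextIdeal (J : Ideal B) : J ≤ nextIdeal J := fun b hb => by
  change FinJoin (cls J b)
  rw [cls_eq_bot.2 hb]
  exact finJoin_bot

theorem cb_mono {γ β : Ordinal.{v}} (h : γ ≤ β) : cb B γ ≤ cb B β := by
  induction β using Ordinal.limitRecOn with
  | zero => rw [le_antisymm h zero_le]
  | add_one β ih =>
    rcases h.lt_or_eq with h | h
    · refine (ih (Order.lt_add_one_iff.1 h)).trans ?_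
      rw [cb_add_one β]
      exact le_nextIdeal _
    · rw [h]
  | limit β hβ ih =>
    rcases h.lt_or_eq with h | h
    · rw [cb_limit' hβ]
      exact le_iSup (fun δ : Set.Iio β => cb B δ.1) ⟨γ, h⟩
    · rw [h]

theorem mem_cb_limit {β : Ordinal.{v}} (h : IsSuccLimit β) {b : B} :
    b ∈ cb B β ↔ ∃ γ < β, b ∈ cb B γ := by
  constructor
  · let U : Ideal B :=
      { carrier := {b | ∃ γ < β, b ∈ cb B γ}
        lower' := fun a c hca ⟨γ, hγ, ha⟩ => ⟨γ, hγ, (cb B γ).lower hca ha⟩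
        nonempty' := ⟨⊥, 0, h.bot_lt, (cb B 0).bot_mem⟩
        directed' := fun a ⟨γ, hγ, ha⟩ c ⟨δ, hδ, hc⟩ =>
          ⟨a ⊔ c, ⟨max γ δ, max_lt hγ hδ, Ideal.sup_mem (cb_mono (le_max_left _ _) ha)
            (cb_mono (le_max_right _ _) hc)⟩, le_sup_left, le_sup_right⟩ }
    have h1 : cb B β ≤ U := by
      rw [cb_limit' h]
      refine iSup_le fun δ => ?_
      intro x hx
      exact ⟨δ.1, δ.2, hx⟩
    intro hb
    exact h1 hb
  · rintro ⟨γ, hγ, hb⟩
    exact cb_mono hγ.le hb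

theorem mem_cb_iff {β : Ordinal.{v}} {b : B} :
    b ∈ cb B β ↔ b = ⊥ ∨ ∃ γ < β, FinJoin (cls (cb B γ) b) := by
  constructor
  · intro hb
    induction β using Ordinal.limitRecOn with
    | zero =>
      rw [cb_zero] at hb
      left
      exact le_bot_iff.1 hb
    | add_one β ih =>
      rw [cb_add_one] at hb
      exact Or.inr ⟨β, lt_add_one β, hb⟩
    | limit β hβ ih =>
      obtain ⟨γ, hγ, hb⟩ := (mem_cb_limit hβ).1 hb
      rcases ih γ hγ hb with h | ⟨δ, hδ, h⟩
      · exact Or.inl h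
      · exact Or.inr ⟨δ, hδ.trans hγ, h⟩
  · rintro (rfl | ⟨γ, hγ, h⟩)
    · exact Ideal.bot_mem _
    · refine cb_mono (Order.add_one_le_iff.2 hγ) ?_
      rw [cb_add_one]
      exact h

/-- The canonical homomorphism. -/
def clsHom (J : Ideal B) : BoundedLatticeHom B (Quo J) where
  toFun := cls J
  map_sup' := cls_sup
  map_inf' := cls_inf
  map_top' := cls_top
  map_bot' := cls_bot

theorem clsHom_apply (J : Ideal B) (b : B) : clsHom J b = cls J b := rfl

theorem clsHom_surj (J : Ideal B) : Function.Surjective (clsHom J) := cls_surj J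

theorem map_le_map_iff {f : BoundedLatticeHom B C} {J : Ideal B} (hJ : ∀ b, f b = ⊥ ↔ b ∈ J)
    {a b : B} : f a ≤ f b ↔ a \ b ∈ J := by
  rw [← hJ, map_sdiff', sdiff_eq_bot_iff]

/-- The homomorphism theorem. -/
theorem quo_iso (f : BoundedLatticeHom B C) (hf : Function.Surjective f) (J : Ideal B)
    (hJ : ∀ b, f b = ⊥ ↔ b ∈ J) : ∃ e : Quo J ≃o C, ∀ b, e (cls J b) = f b := by
  let g : Quo J → C := Quotient.lift f (by
    intro a b h
    have h1 : a ∆ b ∈ J := h
    exact le_antisymm ((map_le_map_iff hJ).2 (symm_left h1))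
      ((map_le_map_iff hJ).2 (symm_right h1)))
  have hg : ∀ b, g (cls J b) = f b := fun b => rfl
  have hle : ∀ x y, g x ≤ g y ↔ x ≤ y := by
    intro x y
    obtain ⟨a, rfl⟩ := cls_surj J x
    obtain ⟨b, rfl⟩ := cls_surj J y
    rw [hg, hg, map_le_map_iff hJ, cls_le]
  have hinj : Function.Injective g := fun x y h =>
    le_antisymm ((hle x y).1 h.le) ((hle y x).1 h.ge)
  have hsur : Function.Surjective g := fun c => by
    obtain ⟨b, rfl⟩ := hf c
    exact ⟨cls J b, rfl⟩
  exact ⟨{ Equiv.ofBijective g ⟨hinj, hsur⟩ with map_rel_iff' := fun {x y} => hle x y },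
    fun b => rfl⟩

theorem atom_map {f : BoundedLatticeHom B C} (hf : Function.Surjective f) {a : B}
    (ha : IsAtom a) : f a = ⊥ ∨ IsAtom (f a) := by
  rcases eq_or_ne (f a) ⊥ with h | h
  · exact Or.inl h
  · refine Or.inr ⟨h, fun y hy => ?_⟩
    obtain ⟨z, rfl⟩ := hf y
    have h1 : f z = f (z ⊓ a) := by
      rw [map_inf, inf_eq_left.2 hy.le]
    rcases ha.le_iff.1 (inf_le_right : z ⊓ a ≤ a) with h2 | h2
    · rw [h1, h2, map_bot]
    · exfalso
      rw [h1, h2] at hy
      exact lt_irrefl _ hy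

theorem finJoin_atom {a : B} (ha : IsAtom a) : FinJoin a :=
  ⟨{a}, by simpa using ha, by simp⟩

theorem finJoin_map {f : BoundedLatticeHom B C} (hf : Function.Surjective f) {x : B}
    (hx : FinJoin x) : FinJoin (f x) := by
  obtain ⟨s, hs, rfl⟩ := hx
  rw [map_finset_sup]
  refine Finset.sup_induction finJoin_bot (fun a h b h' => finJoin_sup h h') fun a ha => ?_
  rcases atom_map hf (hs a ha) with h | h
  · rw [Function.comp_apply, id_eq, h]
    exact finJoin_bot
  · exact finJoin_atom h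

/-- A homomorphism that maps `I` into `J` induces a homomorphism `B/I → C/J`. -/
theorem exists_induced (f : BoundedLatticeHom B C) (I : Ideal B) (J : Ideal C)
    (h : ∀ b ∈ I, f b ∈ J) :
    ∃ g : BoundedLatticeHom (Quo I) (Quo J), ∀ b, g (cls I b) = cls J (f b) := by
  let g : Quo I → Quo J := Quotient.lift (fun b => cls J (f b)) (by
    intro a b hab
    have h1 : a ∆ b ∈ I := hab
    rw [cls_eq, ← map_symmDiff']
    exact h _ h1)
  refine ⟨⟨⟨⟨g, ?_⟩, ?_⟩, ?_, ?_⟩, fun b => rfl⟩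
  · rintro ⟨a⟩ ⟨b⟩
    change cls J (f (a ⊔ b)) = cls J (f a) ⊔ cls J (f b)
    rw [map_sup, cls_sup]
  · rintro ⟨a⟩ ⟨b⟩
    change cls J (f (a ⊓ b)) = cls J (f a) ⊓ cls J (f b)
    rw [map_inf, cls_inf]
  · change cls J (f ⊤) = ⊤
    rw [map_top, cls_top]
  · change cls J (f ⊥) = ⊥
    rw [map_bot, cls_bot]

theorem finJoin_cls_map {f : BoundedLatticeHom B C} (hf : Function.Surjective f) {I : Ideal B}
    {J : Ideal C} (h : ∀ b ∈ I, f b ∈ J) {b : B} (hb : FinJoin (cls I b)) :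
    FinJoin (cls J (f b)) := by
  obtain ⟨g, hg⟩ := exists_induced f I J h
  rw [← hg]
  refine finJoin_map ?_ hb
  intro y
  obtain ⟨c, rfl⟩ := cls_surj J y
  obtain ⟨b, rfl⟩ := hf c
  exact ⟨cls I b, hg b⟩

theorem cb_map {f : BoundedLatticeHom B C} (hf : Function.Surjective f) (β : Ordinal.{v}) :
    ∀ b ∈ cb B β, f b ∈ cb C β := by
  induction β using WellFoundedLT.induction with
  | ind β ih =>
    intro b hb
    rcases mem_cb_iff.1 hb with rfl | ⟨γ, hγ, h⟩
    · rw [map_bot]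
      exact Ideal.bot_mem _
    · exact mem_cb_iff.2 (Or.inr ⟨γ, hγ, finJoin_cls_map hf (ih γ hγ) h⟩)

theorem cb_iso_mem (e : B ≃o C) (β : Ordinal.{v}) (b : B) : e b ∈ cb C β ↔ b ∈ cb B β := by
  constructor
  · intro h
    have h1 := cb_map (f := (e.symm : BoundedLatticeHom C B)) e.symm.surjective β (e b) h
    have h2 : (e.symm : BoundedLatticeHom C B) (e b) = b := e.symm_apply_apply b
    rwa [h2] at h1
  · intro h
    exact cb_map (f := (e : BoundedLatticeHom B C)) e.surjective β b h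

theorem quo_cb_iso (e : B ≃o C) (β : Ordinal.{v}) : Nonempty (Quo (cb B β) ≃o Quo (cb C β)) := by
  obtain ⟨g, _⟩ := quo_iso ((clsHom (cb C β)).comp (e : BoundedLatticeHom B C))
    ((clsHom_surj _).comp e.surjective) (cb B β) (by
      intro b
      change cls (cb C β) (e b) = ⊥ ↔ _
      rw [cls_eq_bot, cb_iso_mem])
  exact ⟨g⟩

end Pool.Agent.W876.Cut
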