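import Pool.Agent.W876.Cut.Cnt

/-!
Cardinality of algebras of countable height.
-/

namespace Pool.Agent.W876.Cut

open scoped symmDiff Cardinal
open Order Set

universe u v

theorem prime_of_one {C : Type u} [BooleanAlgebra C] [Finite C]
    (h : #{x : C // IsAtom x} = 1) (q : C) : q = ⊥ ∨ qᶜ = ⊥ := by
  have hat : IsAtomic C := Finite.to_isAtomic
  have hsub : Subsingleton {x : C // IsAtom x} := (Cardinal.eq_one_iff_unique.1 h).1
  rcases eq_bot_or_exists_atom_le q with h1 | ⟨a, ha, haq⟩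
  · exact Or.inl h1
  · rcases eq_bot_or_exists_atom_le qᶜ with h1 | ⟨a', ha', haq'⟩
    · exact Or.inr h1
    · exfalso
      have h2 : a = a' := congrArg Subtype.val (Subsingleton.elim (⟨a, ha⟩ : {x : C // IsAtom x})
        ⟨a', ha'⟩)
      rw [← h2] at haq'
      exact ha.1 (le_bot_iff.1 ((le_inf haq haq').trans (inf_compl_self q).le))

theorem prime_ideal {B : Type u} [BooleanAlgebra B] {κ : Cardinal.{u}} {α : Ordinal.{v}}
    (h : CardSeq B κ α) (b : B) : b ∈ cb B α ∨ bᶜ ∈ cb B α := by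
  have := h.finite_height
  rcases prime_of_one h.one_atom (cls (cb B α) b) with h1 | h1
  · exact Or.inl (cls_eq_bot.1 h1)
  · rw [← cls_compl] at h1
    exact Or.inr (cls_eq_bot.1 h1)

theorem mk_finset_le {X : Type} (h : #X ≤ Cardinal.aleph 1) :
    #(Finset X) ≤ Cardinal.aleph 1 := by
  classical
  have h1 : #(Finset X) ≤ #(List X) :=
    Cardinal.mk_le_of_surjective (f := List.toFinset) List.toFinset_surjective
  exact h1.trans ((Cardinal.mk_list_le_max X).trans (max_le (Cardinal.aleph0_le_aleph 1) h))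

theorem aleph1_mul : Cardinal.aleph 1 * Cardinal.aleph 1 = Cardinal.aleph 1 :=
  Cardinal.mul_eq_self (Cardinal.aleph0_le_aleph 1)

theorem card_next {B : Type} [BooleanAlgebra B] {I : Ideal B}
    (h : #{x : Quo I // IsAtom x} ≤ Cardinal.aleph 1) (hI : #{b // b ∈ I} ≤ Cardinal.aleph 1) :
    #{b // FinJoin (cls I b)} ≤ Cardinal.aleph 1 := by
  classical
  have h1 : ∀ b : {b // FinJoin (cls I b)}, ∃ s : Finset {x : Quo I // IsAtom x},
      cls I b.1 = s.sup fun x => x.1 := by
    rintro ⟨b, s, hs, hb⟩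
    refine ⟨s.subtype IsAtom, ?_⟩
    change cls I b = _
    rw [hb]
    apply le_antisymm
    · refine Finset.sup_le fun a ha => ?_
      exact Finset.le_sup (f := fun x : {x : Quo I // IsAtom x} => x.1)
        (b := ⟨a, hs a ha⟩) (Finset.mem_subtype.2 ha)
    · refine Finset.sup_le fun a ha => ?_
      exact Finset.le_sup (f := id) (Finset.mem_subtype.1 ha)
  choose s hs using h1
  choose rep hrep using cls_surj I
  have hmem : ∀ b : {b // FinJoin (cls I b)}, b.1 ∆ rep ((s b).sup fun x => x.1) ∈ I := by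
    intro b
    rw [← cls_eq, hrep, hs]
  have hinj : Function.Injective (fun b : {b // FinJoin (cls I b)} =>
      ((s b, ⟨_, hmem b⟩) : Finset {x : Quo I // IsAtom x} × {b // b ∈ I})) := by
    intro b c hbc
    have h2 : s b = s c := congrArg Prod.fst hbc
    have h3 : b.1 ∆ rep ((s b).sup fun x => x.1) = c.1 ∆ rep ((s c).sup fun x => x.1) :=
      congrArg (fun z : Finset {x : Quo I // IsAtom x} × {b // b ∈ I} => z.2.1) hbc
    rw [h2] at h3
    exact Subtype.ext (symmDiff_left_injective _ h3)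
  refine (Cardinal.mk_le_of_injective hinj).trans ?_
  rw [Cardinal.mk_prod, Cardinal.lift_id, Cardinal.lift_id]
  exact (mul_le_mul' (mk_finset_le h) hI).trans aleph1_mul.le

theorem card_union {B : Type} {S : ℕ → Set B} (h : ∀ n, #(S n) ≤ Cardinal.aleph 1) :
    #(⋃ n, S n : Set B) ≤ Cardinal.aleph 1 := by
  refine (Cardinal.mk_iUnion_le_sum_mk).trans ?_
  refine (Cardinal.sum_le_sum _ (fun _ => Cardinal.aleph 1) h).trans ?_
  rw [Cardinal.sum_const', Cardinal.mk_nat]
  exact (mul_le_mul' (Cardinal.aleph0_le_aleph 1) le_rfl).trans aleph1_mul.le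

theorem Iio_ord_countable {β : Ordinal.{0}} (h : β < (Cardinal.aleph 1).ord) :
    (Iio β).Countable := by
  rw [← Cardinal.le_aleph0_iff_set_countable, Cardinal.mk_Iio_ordinal, Cardinal.lift_le_aleph0]
  rw [Cardinal.lt_ord, ← Cardinal.succ_aleph0] at h
  exact Order.lt_succ_iff.1 h

theorem mem_cb_zero {B : Type u} [BooleanAlgebra B] {x : B} :
    x ∈ cb B (0 : Ordinal.{v}) ↔ x = ⊥ := by
  rw [cb_zero]
  change x ≤ ⊥ ↔ x = ⊥
  exact le_bot_iff

theorem card_cb {B : Type} [BooleanAlgebra B] {α : Ordinal.{0}}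
    (hα : α < (Cardinal.aleph 1).ord)
    (h : ∀ β < α, #{x : Quo (cb B β) // IsAtom x} ≤ Cardinal.aleph 1) (β : Ordinal.{0}) :
    β ≤ α → #{b // b ∈ cb B β} ≤ Cardinal.aleph 1 := by
  induction β using WellFoundedLT.induction with
  | ind β ih =>
    intro hβ
    rcases eq_or_ne β 0 with rfl | h0
    · have h1 : Subsingleton {b // b ∈ cb B (0 : Ordinal.{0})} := ⟨fun x y =>
        Subtype.ext ((mem_cb_zero.1 x.2).trans (mem_cb_zero.1 y.2).symm)⟩
      exact (Cardinal.le_one_iff_subsingleton.2 h1).trans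
        (Cardinal.one_le_aleph0.trans (Cardinal.aleph0_le_aleph 1))
    · have hc : Countable (Iio β) := (Iio_ord_countable (hβ.trans_lt hα)).to_subtype
      have hne : Nonempty (Iio β) := ⟨⟨0, pos_iff_ne_zero.2 h0⟩⟩
      obtain ⟨f, hf⟩ := exists_surjective_nat (Iio β)
      let S : ℕ → Set B := fun n => {b | FinJoin (cls (cb B (f n).1) b)}
      have h1 : #(⋃ n, S n : Set B) ≤ Cardinal.aleph 1 := card_union fun n =>
        card_next (h _ ((f n).2.trans_le hβ)) (ih _ (f n).2 ((f n).2.le.trans hβ))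
      refine le_trans ?_ h1
      refine Cardinal.mk_le_mk_of_subset (s := {b | b ∈ cb B β}) ?_
      intro b hb
      rcases mem_cb_iff.1 hb with rfl | ⟨γ, hγ, hfin⟩
      · exact mem_iUnion.2 ⟨0, finJoin_bot⟩
      · obtain ⟨n, hn⟩ := hf ⟨γ, hγ⟩
        refine mem_iUnion.2 ⟨n, ?_⟩
        change FinJoin (cls (cb B (f n).1) b)
        rw [hn]
        exact hfin

theorem atoms_zero {B : Type u} [BooleanAlgebra B] :
    #{x : Quo (cb B (0 : Ordinal.{v})) // IsAtom x} = #{x : B // IsAtom x} := by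
  have h : Nonempty (Quo (cb B (0 : Ordinal.{v})) ≃o B) := by
    obtain ⟨g, _⟩ := quo_iso (BoundedLatticeHom.id B) Function.surjective_id
      (cb B (0 : Ordinal.{v})) (by
        intro b
        rw [cb_zero]
        change b = ⊥ ↔ b ≤ ⊥
        rw [le_bot_iff])
    exact ⟨g⟩
  obtain ⟨e⟩ := h
  exact Cardinal.mk_congr (e.toEquiv.subtypeEquiv fun a => (e.isAtom_iff a).symm)

end Pool.Agent.W876.Cut
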