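import Pool.Agent.W876.Cut.Seq2

/-!
Consequences of property (P) for algebras of countable height.
-/

namespace Pool.Agent.W876.Cut

open scoped symmDiff Cardinal
open Order Set

universe u v

section General

variable {B : Type u} [BooleanAlgebra B]

theorem finJoin_finite {x : B} (h : FinJoin x) : (Iic x).Finite := by
  classical
  obtain ⟨s, hs, rfl⟩ := h
  refine ((s.powerset : Finset (Finset B)).finite_toSet.image fun t => t.sup id).subset ?_
  intro y hy
  refine ⟨s.filter (· ≤ y), by
    rw [Finset.mem_coe, Finset.mem_powerset]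
    exact Finset.filter_subset _ _, ?_⟩
  apply le_antisymm
  · exact Finset.sup_le fun a ha => (Finset.mem_filter.1 ha).2
  · have h1 : y = s.sup fun a => y ⊓ a := by
      rw [← Finset.sup_inf_distrib_left]
      exact (inf_eq_left.2 hy).symm
    rw [h1]
    refine Finset.sup_le fun a ha => ?_
    rcases (hs a ha).le_iff.1 (inf_le_right : y ⊓ a ≤ a) with h2 | h2
    · rw [h2]
      exact bot_le
    · rw [h2]
      refine Finset.le_sup (f := id) (Finset.mem_filter.2 ⟨ha, ?_⟩)
      rw [← h1]
      exact inf_eq_right.1 h2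

theorem atom_le_compl {a x : B} (ha : IsAtom a) (h : ¬ a ≤ x) : a ≤ xᶜ := by
  rcases ha.le_iff.1 (inf_le_left : a ⊓ x ≤ a) with h1 | h1
  · exact le_compl_iff_disjoint_right.2 (disjoint_iff.2 h1)
  · exact absurd (inf_eq_left.1 h1) h

theorem atom_le_compl_iff {a x : B} (ha : IsAtom a) : a ≤ xᶜ ↔ ¬ a ≤ x := by
  refine ⟨fun h h' => ?_, atom_le_compl ha⟩
  exact ha.1 (le_bot_iff.1 ((le_inf h' h).trans (inf_compl_self x).le))

theorem atom_le_sup {a x y : B} (ha : IsAtom a) (h : a ≤ x ⊔ y) : a ≤ x ∨ a ≤ y := by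
  by_contra hcon
  push Not at hcon
  have h1 : a ≤ (x ⊔ y)ᶜ := by
    rw [compl_sup]
    exact le_inf (atom_le_compl ha hcon.1) (atom_le_compl ha hcon.2)
  exact ha.1 (le_bot_iff.1 ((le_inf h h1).trans (inf_compl_self _).le))

/-- Relative algebras of members of the last ideal are countable. -/
theorem countable_below (hP : PropP B) {α : Ordinal.{v}}
    (hα : ∀ β < α, Infinite (Quo (cb B β))) {b : B} (hb : b ∈ cb B α) : (Iic b).Countable := by
  set J : Ideal B := Ideal.principal bᶜ with hJ
  have hinj : ∀ x ≤ b, ∀ y ≤ b, cls J x = cls J y → x = y := by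
    intro x hx y hy h
    have h1 : x ∆ y ≤ bᶜ := cls_eq.1 h
    have h2 : x ∆ y ≤ b := by
      refine (symmDiff_le_sup).trans (sup_le hx hy)
    have h3 : x ∆ y = ⊥ := by
      rw [eq_bot_iff, ← inf_compl_self b]
      exact le_inf h2 h1
    exact symmDiff_eq_bot.1 h3
  have hcls : ∀ x, cls J (x ⊓ b) = cls J x := by
    intro x
    rw [cls_eq, hJ, Ideal.mem_principal]
    refine sup_le ?_ ?_
    · rw [sdiff_eq_bot_iff.2 inf_le_left]
      exact bot_le
    · rw [sdiff_inf_self_left, _root_.sdiff_eq]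
      exact inf_le_right
  by_cases hc : Countable (Quo J)
  · rw [← countable_coe_iff]
    refine Function.Injective.countable (f := fun x : Iic b => cls J x.1) ?_
    intro x y hxy
    exact Subtype.ext (hinj x.1 x.2 y.1 y.2 hxy)
  · exfalso
    obtain ⟨e⟩ := hP J (not_countable_iff.1 hc)
    rcases mem_cb_iff.1 hb with rfl | ⟨γ, hγ, hfin⟩
    · apply hc
      have : Subsingleton (Quo J) := ⟨fun x y => by
        obtain ⟨x, rfl⟩ := cls_surj J x
        obtain ⟨y, rfl⟩ := cls_surj J y
        rw [← hcls x, ← hcls y, inf_bot_eq, inf_bot_eq]⟩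
      exact inferInstance
    · obtain ⟨g⟩ := quo_cb_iso e γ
      have h1 : Infinite (Quo (cb (Quo J) γ)) := g.toEquiv.infinite_iff.2 (hα γ hγ)
      obtain ⟨φ, hφ⟩ := exists_induced (clsHom J) (cb B γ) (cb (Quo J) γ)
        (cb_map (clsHom_surj J) γ)
      have h2 : (univ : Set (Quo (cb (Quo J) γ))) ⊆ φ '' Iic (cls (cb B γ) b) := by
        intro z _
        obtain ⟨y, rfl⟩ := cls_surj _ z
        obtain ⟨x, rfl⟩ := cls_surj _ y
        refine ⟨cls (cb B γ) (x ⊓ b), ?_, ?_⟩
        · rw [mem_Iic, cls_inf]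
          exact inf_le_right
        · rw [hφ, clsHom_apply, hcls]
      exact infinite_univ (((finJoin_finite hfin).image φ).subset h2)

/-- An uncountable set of atoms that is almost disjoint from the last ideal. -/
theorem no_discrete (hP : PropP B) {α : Ordinal.{v}} (hα : Infinite (Quo (cb B (1 : Ordinal.{v}))))
    (hprime : ∀ b : B, b ∈ cb B α ∨ bᶜ ∈ cb B α) (D : Set B) (hD : ¬ D.Countable)
    (hatom : ∀ d ∈ D, IsAtom d) (hfin : ∀ b ∈ cb B α, {d ∈ D | d ≤ b}.Finite) : False := by
  let J : Ideal B :=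
    { carrier := {b | ∀ d ∈ D, ¬ d ≤ b}
      lower' := fun a c hca ha d hd h => ha d hd (h.trans hca)
      nonempty' := ⟨⊥, fun d hd h => (hatom d hd).1 (le_bot_iff.1 h)⟩
      directed' := fun a ha c hc => ⟨a ⊔ c, fun d hd h => by
        rcases atom_le_sup (hatom d hd) h with h | h
        · exact ha d hd h
        · exact hc d hd h, le_sup_left, le_sup_right⟩ }
  have hJ : ∀ b, b ∈ J ↔ ∀ d ∈ D, ¬ d ≤ b := fun b => Iff.rfl
  have hunc : Uncountable (Quo J) := by
    rw [← not_countable_iff]
    intro hc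
    apply hD
    rw [← countable_coe_iff]
    refine Function.Injective.countable (f := fun x : D => cls J x.1) ?_
    intro x y hxy
    by_contra hne
    have h1 : x.1 \ y.1 ∈ J := symm_left (cls_eq.1 hxy)
    have h2 : Disjoint x.1 y.1 := (hatom _ x.2).disjoint_of_ne (hatom _ y.2)
      (fun h => hne (Subtype.ext h))
    exact h1 x.1 x.2 (by rw [h2.sdiff_eq_left])
  obtain ⟨e⟩ := hP J hunc
  have hK : ∀ b ∈ cb B α, FinJoin (cls J b) := by
    intro b hb
    have h1 := hfin b hb
    have h2 : cls J b = cls J (h1.toFinset.sup id) := by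
      apply le_antisymm
      · rw [cls_le, hJ]
        intro d hd h
        have h3 : d ∈ h1.toFinset := by
          rw [Finite.mem_toFinset]
          exact ⟨hd, h.trans sdiff_le⟩
        have h4 : d ≤ h1.toFinset.sup id := Finset.le_sup (f := id) h3
        have h5 : Disjoint (h1.toFinset.sup id) (b \ h1.toFinset.sup id) := disjoint_sdiff_self_right
        exact (hatom d hd).1 (le_bot_iff.1 (h5 h4 h))
      · rw [cls_le]
        apply sdiff_mem_of_le
        refine Finset.sup_le fun d hd => ?_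
        rw [Finite.mem_toFinset] at hd
        exact hd.2
    rw [h2]
    refine finJoin_map (f := clsHom J) (clsHom_surj J) ⟨h1.toFinset, fun d hd => ?_, rfl⟩
    rw [Finite.mem_toFinset] at hd
    exact hatom d hd.1
  have hmem : ∀ b ∈ cb B α, cls J b ∈ cb (Quo J) (1 : Ordinal.{v}) := by
    intro b hb
    refine mem_cb_iff.2 (Or.inr ⟨0, zero_lt_one, ?_⟩)
    exact finJoin_map (f := clsHom _) (clsHom_surj _) (hK b hb)
  obtain ⟨g⟩ := quo_cb_iso e (1 : Ordinal.{v})
  have h1 : Infinite (Quo (cb (Quo J) (1 : Ordinal.{v}))) := g.toEquiv.infinite_iff.2 hα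
  refine infinite_univ (α := Quo (cb (Quo J) (1 : Ordinal.{v}))) ((toFinite {⊥, ⊤}).subset ?_)
  intro z _
  obtain ⟨y, rfl⟩ := cls_surj _ z
  obtain ⟨x, rfl⟩ := cls_surj _ y
  rcases hprime x with h | h
  · left
    exact cls_eq_bot.2 (hmem x h)
  · right
    have h2 := cls_eq_bot.2 (hmem _ h)
    rw [cls_compl, cls_compl] at h2
    rw [mem_singleton_iff, ← compl_eq_bot, h2]

end General

end Pool.Agent.W876.Cut
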