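import Mathlib

/-!
Definitions for MP_0eabd7_lc: quotients of Boolean algebras by ideals, the Cantor-Bendixson
ideals, cardinal sequences, property (P), Martin's axiom for aleph_1 dense sets.
-/

namespace Pool.Agent.W876.Cut

open scoped symmDiff Cardinal
open Order

universe u v

section Quo

variable {B : Type u} [BooleanAlgebra B]

/-- Congruence modulo the ideal `J`: `a` and `b` are congruent when `a ∆ b ∈ J`. -/
def cong (J : Ideal B) : Setoid B where
  r a b := a ∆ b ∈ J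
  iseqv := by
    refine ⟨fun a => by simp, fun {a b} h => ?_, fun {a b c} h h' => ?_⟩
    · rwa [symmDiff_comm]
    · exact J.lower (symmDiff_triangle a b c) (Ideal.sup_mem h h')

theorem sdiff_mem_of_le (J : Ideal B) {a b : B} (h : a ≤ b) : a \ b ∈ J := by
  rw [sdiff_eq_bot_iff.2 h]
  exact J.bot_mem

/-- The quotient Boolean algebra `B/J`. -/
def Quo (J : Ideal B) : Type u := Quotient (cong J)

/-- The class `b/J` of `b`. -/
def cls (J : Ideal B) (b : B) : Quo J := Quotient.mk (cong J) b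

theorem cls_surj (J : Ideal B) (x : Quo J) : ∃ b, cls J b = x := Quotient.exists_rep x

theorem cls_eq {J : Ideal B} {a b : B} : cls J a = cls J b ↔ a ∆ b ∈ J :=
  Quotient.eq (r := cong J)

theorem symm_left {J : Ideal B} {a b : B} (h : a ∆ b ∈ J) : a \ b ∈ J :=
  J.lower le_sup_left h

theorem symm_right {J : Ideal B} {a b : B} (h : a ∆ b ∈ J) : b \ a ∈ J :=
  J.lower le_sup_right h

theorem symm_of {J : Ideal B} {a b : B} (h : a \ b ∈ J) (h' : b \ a ∈ J) : a ∆ b ∈ J :=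
  Ideal.sup_mem h h'

theorem le_congr {J : Ideal B} {a b a' b' : B} (h : a ∆ a' ∈ J) (h' : b ∆ b' ∈ J)
    (hab : a \ b ∈ J) : a' \ b' ∈ J := by
  have h1 : a' \ b' ≤ (a' \ a) ⊔ ((a \ b) ⊔ (b \ b')) :=
    (sdiff_triangle a' a b').trans (sup_le_sup_left (sdiff_triangle a b b') _)
  exact J.lower h1 (Ideal.sup_mem (symm_right h) (Ideal.sup_mem hab (symm_left h')))

theorem sup_congr {J : Ideal B} {a b a' b' : B} (h : a ∆ a' ∈ J) (h' : b ∆ b' ∈ J) :
    (a ⊔ b) ∆ (a' ⊔ b') ∈ J := by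
  have key : ∀ {a b a' b' : B}, a ∆ a' ∈ J → b ∆ b' ∈ J → (a ⊔ b) \ (a' ⊔ b') ∈ J := by
    intro a b a' b' h h'
    refine J.lower ?_ (Ideal.sup_mem (symm_left h) (symm_left h'))
    rw [sup_sdiff]
    exact sup_le_sup (sdiff_le_sdiff_left le_sup_left) (sdiff_le_sdiff_left le_sup_right)
  refine symm_of (key h h') (key ?_ ?_)
  · rwa [symmDiff_comm]
  · rwa [symmDiff_comm]

theorem compl_congr {J : Ideal B} {a a' : B} (h : a ∆ a' ∈ J) : aᶜ ∆ a'ᶜ ∈ J := by
  rwa [compl_symmDiff_compl]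

theorem inf_congr {J : Ideal B} {a b a' b' : B} (h : a ∆ a' ∈ J) (h' : b ∆ b' ∈ J) :
    (a ⊓ b) ∆ (a' ⊓ b') ∈ J := by
  have := compl_congr (sup_congr (compl_congr h) (compl_congr h'))
  simpa using this

/-- The operations of `B/J` are those induced by `B`; `a/J ≤ b/J` means `a \ b ∈ J`. -/
instance (J : Ideal B) : BooleanAlgebra (Quo J) where
  le := Quotient.lift₂ (s₁ := cong J) (s₂ := cong J) (fun a b => a \ b ∈ J) (by
    intro a b a' b' h h'
    have h2 : a ∆ a' ∈ J := h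
    have h2' : b ∆ b' ∈ J := h'
    refine propext ⟨le_congr h h', le_congr ?_ ?_⟩
    · rwa [symmDiff_comm]
    · rwa [symmDiff_comm])
  sup := Quotient.map₂ (sa := cong J) (sb := cong J) (sc := cong J) (· ⊔ ·) (by
    intro a a' h b b' h'
    exact sup_congr h h')
  inf := Quotient.map₂ (sa := cong J) (sb := cong J) (sc := cong J) (· ⊓ ·) (by
    intro a a' h b b' h'
    exact inf_congr h h')
  compl := Quotient.map (sa := cong J) (sb := cong J) (·ᶜ) (by
    intro a a' h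
    exact compl_congr h)
  top := cls J ⊤
  bot := cls J ⊥
  le_refl := by
    rintro ⟨a⟩
    change a \ a ∈ J
    simp
  le_trans := by
    rintro ⟨a⟩ ⟨b⟩ ⟨c⟩ h h'
    exact J.lower (sdiff_triangle a b c) (Ideal.sup_mem h h')
  le_antisymm := by
    rintro ⟨a⟩ ⟨b⟩ h h'
    exact cls_eq.2 (symm_of h h')
  le_sup_left := by
    rintro ⟨a⟩ ⟨b⟩
    exact sdiff_mem_of_le J le_sup_left
  le_sup_right := by
    rintro ⟨a⟩ ⟨b⟩
    exact sdiff_mem_of_le J le_sup_right
  sup_le := by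
    rintro ⟨a⟩ ⟨b⟩ ⟨c⟩ h h'
    change (a ⊔ b) \ c ∈ J
    rw [sup_sdiff]
    exact Ideal.sup_mem h h'
  inf_le_left := by
    rintro ⟨a⟩ ⟨b⟩
    exact sdiff_mem_of_le J inf_le_left
  inf_le_right := by
    rintro ⟨a⟩ ⟨b⟩
    exact sdiff_mem_of_le J inf_le_right
  le_inf := by
    rintro ⟨a⟩ ⟨b⟩ ⟨c⟩ h h'
    change a \ (b ⊓ c) ∈ J
    rw [sdiff_inf]
    exact Ideal.sup_mem h h'
  le_sup_inf := by
    rintro ⟨a⟩ ⟨b⟩ ⟨c⟩
    change ((a ⊔ b) ⊓ (a ⊔ c)) \ (a ⊔ b ⊓ c) ∈ J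
    exact sdiff_mem_of_le J (sup_inf_left _ _ _).ge
  inf_compl_le_bot := by
    rintro ⟨a⟩
    change (a ⊓ aᶜ) \ ⊥ ∈ J
    simp
  top_le_sup_compl := by
    rintro ⟨a⟩
    change ⊤ \ (a ⊔ aᶜ) ∈ J
    simp
  le_top := by
    rintro ⟨a⟩
    change a \ ⊤ ∈ J
    simp
  bot_le := by
    rintro ⟨a⟩
    change ⊥ \ a ∈ J
    simp

theorem cls_le {J : Ideal B} {a b : B} : cls J a ≤ cls J b ↔ a \ b ∈ J := Iff.rfl

theorem cls_sup {J : Ideal B} (a b : B) : cls J (a ⊔ b) = cls J a ⊔ cls J b := rfl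

theorem cls_inf {J : Ideal B} (a b : B) : cls J (a ⊓ b) = cls J a ⊓ cls J b := rfl

theorem cls_bot {J : Ideal B} : cls J ⊥ = ⊥ := rfl

theorem cls_top {J : Ideal B} : cls J ⊤ = ⊤ := rfl

theorem cls_compl {J : Ideal B} (a : B) : cls J aᶜ = (cls J a)ᶜ := rfl

theorem cls_sdiff {J : Ideal B} (a b : B) : cls J (a \ b) = cls J a \ cls J b := by
  rw [sdiff_eq, cls_inf, cls_compl, sdiff_eq]

theorem cls_eq_bot {J : Ideal B} {a : B} : cls J a = ⊥ ↔ a ∈ J := by
  rw [← cls_bot, cls_eq]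
  simp

/-- `x` is a finite join of atoms. -/
def FinJoin (x : B) : Prop := ∃ s : Finset B, (∀ a ∈ s, IsAtom a) ∧ x = s.sup id

theorem finJoin_of_le {x y : B} (hx : FinJoin x) (h : y ≤ x) : FinJoin y := by
  classical
  obtain ⟨s, hs, rfl⟩ := hx
  refine ⟨s.filter (· ≤ y), fun a ha => hs a (Finset.mem_filter.1 ha).1, ?_⟩
  apply le_antisymm
  · have h1 : y = s.sup fun a => y ⊓ a := by
      rw [← Finset.sup_inf_distrib_left]
      exact (inf_eq_left.2 h).symm
    rw [h1]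
    refine Finset.sup_le fun a ha => ?_
    rcases (hs a ha).le_iff.1 (inf_le_right : y ⊓ a ≤ a) with h2 | h2
    · rw [h2]
      exact bot_le
    · rw [h2]
      refine Finset.le_sup (f := id) (Finset.mem_filter.2 ⟨ha, ?_⟩)
      rw [← h1]
      exact inf_eq_right.1 h2
  · exact Finset.sup_le fun a ha => (Finset.mem_filter.1 ha).2

theorem finJoin_sup {x y : B} (hx : FinJoin x) (hy : FinJoin y) : FinJoin (x ⊔ y) := by
  classical
  obtain ⟨s, hs, rfl⟩ := hx
  obtain ⟨t, ht, rfl⟩ := hy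
  refine ⟨s ∪ t, fun a ha => ?_, (Finset.sup_union).symm⟩
  rcases Finset.mem_union.1 ha with h | h
  · exact hs a h
  · exact ht a h

theorem finJoin_bot : FinJoin (⊥ : B) := ⟨∅, by simp, by simp⟩

/-- The next Cantor-Bendixson ideal: all `b` such that `b/J` is a finite join of atoms
of `B/J`. -/
def nextIdeal (J : Ideal B) : Ideal B where
  carrier := {b | FinJoin (cls J b)}
  lower' := fun _ _ hba hb => finJoin_of_le hb (by
    rw [cls_le]
    exact sdiff_mem_of_le J hba)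
  nonempty' := ⟨⊥, finJoin_bot⟩
  directed' := fun a ha b hb => ⟨a ⊔ b, finJoin_sup ha hb, le_sup_left, le_sup_right⟩

theorem mem_nextIdeal {J : Ideal B} {b : B} : b ∈ nextIdeal J ↔ FinJoin (cls J b) := Iff.rfl

end Quo

/-- The Cantor-Bendixson ideals `I_β(B)`: `I_0 = {0}`, `I_{β+1}` is the set of all `b` such that
`b/I_β` is a finite join of atoms of `B/I_β`, and `I_λ` is the union (the supremum in the lattice
of ideals) of the `I_β`, `β < λ`, for limit `λ`. -/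
noncomputable def cb (B : Type u) [BooleanAlgebra B] (β : Ordinal.{v}) : Ideal B :=
  Ordinal.limitRecOn β ⊥ (fun _ J => nextIdeal J) (fun γ _ F => ⨆ δ : Set.Iio γ, F δ.1 δ.2)

/-- Property (P). -/
def PropP (B : Type u) [BooleanAlgebra B] : Prop :=
  ∀ J : Ideal B, Uncountable (Quo J) → Nonempty (Quo J ≃o B)

/-- `B` is superatomic with cardinal sequence `⟨κ, κ, …, 1⟩` of length `δ`. -/
structure CardSeq (B : Type u) [BooleanAlgebra B] (κ : Cardinal.{u}) (δ : Ordinal.{v}) :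
    Prop where
  superatomic : ∃ β : Ordinal.{v}, cb B β = ⊤
  finite_height : Finite (Quo (cb B δ))
  infinite_below : ∀ β < δ, Infinite (Quo (cb B β))
  card_atoms : ∀ β < δ, #{x : Quo (cb B β) // IsAtom x} = κ
  one_atom : #{x : Quo (cb B δ) // IsAtom x} = 1

/-- Martin's axiom for `ℵ₁` dense sets: for every nonempty preorder in which every uncountable set
has two distinct compatible elements and every family of at most `ℵ₁` dense sets there is
a filter meeting all of them. -/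
def MAAlephOne : Prop :=
  ∀ (P : Type) [Preorder P] [Nonempty P],
    (∀ A : Set P, ¬ A.Countable → ∃ p ∈ A, ∃ q ∈ A, p ≠ q ∧ ∃ r, r ≤ p ∧ r ≤ q) →
    ∀ D : Set (Set P), #D ≤ Cardinal.aleph 1 → (∀ d ∈ D, ∀ p, ∃ q ∈ d, q ≤ p) →
      ∃ G : Set P, G.Nonempty ∧ (∀ p ∈ G, ∀ q, p ≤ q → q ∈ G) ∧
        (∀ p ∈ G, ∀ q ∈ G, ∃ r ∈ G, r ≤ p ∧ r ≤ q) ∧ ∀ d ∈ D, (G ∩ d).Nonempty

end Pool.Agent.W876.Cut
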