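import Pool.Agent.W876.Cut.Om

/-!
Uncountable quotients of the algebra of clopen subsets of `ω₁ + 1`.
-/

namespace Pool.Agent.W876.Cut

open scoped symmDiff Cardinal
open Order Set

/-- An unbounded subset of `ω₁` is order isomorphic to `ω₁`. -/
theorem exists_enum {F : Set Om} (hF : ∀ γ, ∃ x ∈ F, γ < x) : Nonempty (Om ≃o F) := by
  have h1 : ¬ F.Countable := fun h => by
    obtain ⟨γ, hγ⟩ := countable_bdd h
    obtain ⟨x, hx, h2⟩ := hF γ
    exact lt_asymm h2 (hγ x hx)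
  have h2 : Cardinal.aleph 1 ≤ #F := by
    rw [← Cardinal.succ_aleph0, Order.succ_le_iff, Cardinal.aleph0_lt_mk_iff]
    exact not_countable_iff.1 fun h => h1 (countable_coe_iff.1 h)
  have h3 : (Cardinal.aleph 1).ord ≤ Ordinal.type (· < · : F → F → Prop) :=
    Cardinal.ord_le.2 (by simpa using h2)
  have h4 : Ordinal.type (· < · : F → F → Prop) ≤ Ordinal.type (· < · : Om → Om → Prop) :=
    Ordinal.type_le_iff'.2 ⟨⟨Function.Embedding.subtype _, Iff.rfl⟩⟩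
  have h5 : Ordinal.type (· < · : Om → Om → Prop) = (Cardinal.aleph 1).ord :=
    Ordinal.type_toType _
  obtain ⟨e⟩ := Ordinal.type_eq.1 (le_antisymm h4 (h5.le.trans h3))
  exact ⟨(OrderIso.ofRelIsoLT e).symm⟩

/-- If the closed set of an ideal is unbounded then the quotient is isomorphic to the algebra. -/
theorem quo_iso_co {J : Ideal CO} (hF : ∀ γ, ∃ x ∈ Fs J, γ < x) : Nonempty (Quo J ≃o CO) := by
  obtain ⟨e'⟩ := exists_enum hF
  set e : Om → Om := fun x => (e' x : Om) with he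
  have heF : ∀ x, e x ∈ Fs J := fun x => (e' x).2
  have hsurj : ∀ y ∈ Fs J, ∃ x, e x = y := fun y hy => ⟨e'.symm ⟨y, hy⟩, by simp [he]⟩
  have hlt : ∀ {x y}, e x < e y ↔ x < y := fun {x y} => by
    simp only [he, Subtype.coe_lt_coe, e'.lt_iff_lt]
  have hle : ∀ {x y}, e x ≤ e y ↔ x ≤ y := fun {x y} => by
    simp only [he, Subtype.coe_le_coe, e'.le_iff_le]
  have hid : ∀ x, x ≤ e x := fun x => by
    have hm : StrictMono e := fun x y h => hlt.2 h
    exact hm.le_apply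
  -- continuity
  have hcont : ∀ δ α γ₀ : Om, α < δ → γ₀ < e δ → ∃ γ < δ, ∀ x, γ < x → x ≤ δ → γ₀ < e x := by
    intro δ α γ₀ hα hγ₀
    by_contra hcon
    push Not at hcon
    have h1 : ∀ γ < δ, ∃ x, γ < x ∧ x < δ ∧ e x ≤ γ₀ := by
      intro γ hγ
      obtain ⟨x, hx1, hx2, hx3⟩ := hcon γ hγ
      refine ⟨x, hx1, hx2.lt_of_ne ?_, hx3⟩
      rintro rfl
      exact absurd hγ₀ (not_lt.2 hx3)
    have h2 : ∀ γ < δ, e γ < γ₀ := by
      intro γ hγ
      obtain ⟨x, hx1, hx2, hx3⟩ := h1 γ hγ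
      exact (hlt.2 hx1).trans_le hx3
    obtain ⟨s, hs1, hs2⟩ : ∃ s, (∀ γ < δ, e γ ≤ s) ∧ ∀ t, (∀ γ < δ, e γ ≤ t) → s ≤ t := by
      have hne : {t : Om | ∀ γ < δ, e γ ≤ t}.Nonempty := ⟨γ₀, fun γ hγ => (h2 γ hγ).le⟩
      exact ⟨(wellFounded_lt (α := Om)).min _ hne, (wellFounded_lt (α := Om)).min_mem _ hne,
        fun t ht => not_lt.1 ((wellFounded_lt (α := Om)).not_lt_min
          {t : Om | ∀ γ < δ, e γ ≤ t} ht)⟩
    have hsγ : s ≤ γ₀ := hs2 γ₀ fun γ hγ => (h2 γ hγ).le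
    obtain ⟨x₁, hx1, hx2, hx3⟩ := h1 α hα
    have hmin : e α < s := (hlt.2 hx1).trans_le (hs1 x₁ hx2)
    have hsF : s ∈ Fs J := by
      intro j hj hsj
      obtain ⟨t, ht, hj2⟩ := co_const j hmin
      have h3 : ∃ γ < δ, t < e γ := by
        by_contra hcon
        push Not at hcon
        exact absurd ht (not_lt.2 (hs2 t hcon))
      obtain ⟨γ, hγ, h4⟩ := h3
      exact heF γ j hj ((hj2 (e γ) h4 (hs1 γ hγ)).2 hsj)
    obtain ⟨ξ, rfl⟩ := hsurj s hsF
    have hξ : ξ < δ := hlt.1 (hsγ.trans_lt hγ₀)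
    obtain ⟨x, hx1, hx2, _⟩ := h1 ξ hξ
    exact absurd (hs1 x hx2) (not_le.2 (hlt.2 hx1))
  have hpre : ∀ b : CO, e ⁻¹' (b : Set Om) ∈ clop := by
    intro b
    refine ⟨fun δ α hα => ?_, ?_⟩
    · obtain ⟨γ₀, hγ₀, h1⟩ := co_const b (hlt.2 hα)
      obtain ⟨γ, hγ, h2⟩ := hcont δ α γ₀ hα hγ₀
      exact ⟨γ, hγ, fun x hx hxδ => h1 (e x) (h2 x hx hxδ) (hle.2 hxδ)⟩
    · obtain ⟨γ, hγ⟩ := co_ev b
      refine ⟨γ, hγ.imp (fun h x hx => h _ (hx.trans_le (hid x)))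
        (fun h x hx => h _ (hx.trans_le (hid x)))⟩
  let Φ : BoundedLatticeHom CO CO :=
    { toFun := fun b => ⟨e ⁻¹' (b : Set Om), hpre b⟩
      map_sup' := fun a b => rfl
      map_inf' := fun a b => rfl
      map_top' := rfl
      map_bot' := rfl }
  have hΦ : ∀ b x, x ∈ (Φ b : Set Om) ↔ e x ∈ (b : Set Om) := fun b x => Iff.rfl
  -- the inverse
  have hr : ∀ x, ∃ ξ, x ≤ e ξ ∧ ∀ η, x ≤ e η → ξ ≤ η := by
    intro x
    have hne : {t : Om | x ≤ e t}.Nonempty := ⟨x, hid x⟩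
    exact ⟨(wellFounded_lt (α := Om)).min _ hne, (wellFounded_lt (α := Om)).min_mem _ hne,
        fun t ht => not_lt.1 ((wellFounded_lt (α := Om)).not_lt_min _ ht)⟩
  choose r hr1 hr2 using hr
  have hre : ∀ x, r (e x) = x := fun x => le_antisymm (hr2 _ _ le_rfl) (hle.1 (hr1 (e x)))
  have hrm : ∀ {x y}, x ≤ y → r x ≤ r y := fun {x y} h => hr2 _ _ (h.trans (hr1 y))
  have hrl : ∀ {x η}, e η < x → η < r x := fun {x η} h => hlt.1 (h.trans_le (hr1 x))
  have hrmem : ∀ c : CO, r ⁻¹' (c : Set Om) ∈ clop := by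
    intro c
    refine ⟨fun δ α hα => ?_, ?_⟩
    · by_cases h0 : ∃ β, β < r δ
      · obtain ⟨β, hβ⟩ := h0
        obtain ⟨η, hη, h1⟩ := co_const c hβ
        have h2 : e η < δ := not_le.1 fun h => absurd hη (not_lt.2 (hr2 _ _ h))
        exact ⟨e η, h2, fun x hx hxδ => h1 (r x) (hrl hx) (hrm hxδ)⟩
      · refine ⟨α, hα, fun x hx hxδ => ?_⟩
        have h3 : r x = r δ := by
          rcases (hrm hxδ).lt_or_eq with h3 | h3
          · exact absurd ⟨_, h3⟩ h0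
          · exact h3
        change r x ∈ (c : Set Om) ↔ r δ ∈ (c : Set Om)
        rw [h3]
    · obtain ⟨γ, hγ⟩ := co_ev c
      exact ⟨e γ, hγ.imp (fun h x hx => h _ (hrl hx)) (fun h x hx => h _ (hrl hx))⟩
  have hsur : Function.Surjective Φ := by
    intro c
    refine ⟨⟨r ⁻¹' (c : Set Om), hrmem c⟩, ?_⟩
    apply Subtype.ext
    ext x
    change r (e x) ∈ (c : Set Om) ↔ _
    rw [hre]
  have hker : ∀ b, Φ b = ⊥ ↔ b ∈ J := by
    intro b
    constructor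
    · intro h
      have h1 : ∀ x, e x ∉ (b : Set Om) := fun x hx => co_eq_bot.1 h x hx
      have h2 : ∀ x ∈ (b : Set Om), x ∉ Fs J := fun x hx hF => by
        obtain ⟨y, rfl⟩ := hsurj x hF
        exact h1 y hx
      obtain ⟨γ, hγ⟩ := co_ev b
      rcases hγ with hγ | hγ
      · exfalso
        obtain ⟨y, hy⟩ := exists_gt' γ
        exact h1 y (hγ _ (hy.trans_le (hid y)))
      · exact mem_of_bdd (fun x hx => not_lt.1 fun h3 => hγ x h3 hx) h2
    · intro h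
      rw [co_eq_bot]
      intro x hx
      exact heF x b h hx
  obtain ⟨g, _⟩ := quo_iso Φ hsur J hker
  exact ⟨g⟩

/-- The algebra of clopen subsets of `ω₁ + 1` has property (P). -/
theorem propP_co : PropP CO := by
  intro J hJ
  apply quo_iso_co
  by_contra hcon
  push Not at hcon
  obtain ⟨γ, hγ⟩ := hcon
  exact not_countable (α := Quo J) (quo_countable hγ)

end Pool.Agent.W876.Cut
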