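import Pool.Agent.W876.Cut.Uf
import Pool.Agent.Helper126.Fact

/-!
The poset adding an uncountable set of atoms that is almost disjoint from the last ideal,
and the application of Martin's axiom.
-/

namespace Pool.Agent.W876.Cut

open scoped symmDiff Cardinal
open Order Set

variable {B : Type} [BooleanAlgebra B]

/-- Conditions: a finite set of atoms and a member of the ideal `K`. -/
structure Cnd (K : Ideal B) where
  s : Finset B
  hs : ∀ a ∈ s, IsAtom a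
  k : B
  hk : k ∈ K

instance (K : Ideal B) : Preorder (Cnd K) where
  le p q := q.s ⊆ p.s ∧ q.k ≤ p.k ∧ ∀ a ∈ p.s, a ∉ q.s → ¬ a ≤ q.k
  le_refl p := ⟨Finset.Subset.refl _, le_rfl, fun a ha ha' => absurd ha ha'⟩
  le_trans p q r := fun ⟨h1, h2, h3⟩ ⟨h4, h5, h6⟩ => ⟨h4.trans h1, h5.trans h2, fun a ha ha' => by
    by_cases hq : a ∈ q.s
    · exact h6 a hq ha'
    · exact fun h => h3 a ha hq (h.trans h5)⟩

theorem cnd_le {K : Ideal B} {p q : Cnd K} :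
    p ≤ q ↔ q.s ⊆ p.s ∧ q.k ≤ p.k ∧ ∀ a ∈ p.s, a ∉ q.s → ¬ a ≤ q.k := Iff.rfl

instance (K : Ideal B) : Nonempty (Cnd K) := ⟨⟨∅, by simp, ⊥, K.bot_mem⟩⟩

theorem cnd_compat {K : Ideal B} {p q : Cnd K} (h : ∀ a ∈ q.s, a ∉ p.s → ¬ a ≤ p.k)
    (h' : ∀ a ∈ p.s, a ∉ q.s → ¬ a ≤ q.k) : ∃ r, r ≤ p ∧ r ≤ q := by
  classical
  refine ⟨⟨p.s ∪ q.s, fun a ha => ?_, p.k ⊔ q.k, Ideal.sup_mem p.hk q.hk⟩, ?_, ?_⟩
  · rcases Finset.mem_union.1 ha with h | h
    · exact p.hs a h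
    · exact q.hs a h
  · refine ⟨Finset.subset_union_left, le_sup_left, fun a ha ha' => ?_⟩
    exact h a ((Finset.mem_union.1 ha).resolve_left ha') ha'
  · refine ⟨Finset.subset_union_right, le_sup_right, fun a ha ha' => ?_⟩
    exact h' a ((Finset.mem_union.1 ha).resolve_right ha') ha'

/-- Choosing an `ω₁`-sequence. -/
theorem exists_om_seq {I : Type} {good : Set I → I → Prop}
    (h : ∀ S : Set I, S.Countable → ∃ i, good S i) :
    ∃ f : Om → I, ∀ ζ, good (f '' Iio ζ) (f ζ) := by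
  classical
  have h' : ∀ S : Set I, ∃ i, S.Countable → good S i := by
    intro S
    by_cases hS : S.Countable
    · obtain ⟨i, hi⟩ := h S hS
      exact ⟨i, fun _ => hi⟩
    · obtain ⟨i, _⟩ := h ∅ countable_empty
      exact ⟨i, fun h => absurd h hS⟩
  choose c hc using h'
  let f : Om → I := (wellFounded_lt (α := Om)).fix fun ζ F => c (range fun ξ : Iio ζ => F ξ.1 ξ.2)
  have hf : ∀ ζ, f ζ = c (range fun ξ : Iio ζ => f ξ.1) := fun ζ => by
    exact (wellFounded_lt (α := Om)).fix_eq _ ζ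
  refine ⟨f, fun ζ => ?_⟩
  have h1 : (range fun ξ : Iio ζ => f ξ.1) = f '' Iio ζ := by
    ext x
    simp
  rw [hf ζ, h1]
  exact hc _ ((Iio_countable ζ).image f)

theorem cnd_ccc {α : Ordinal.{0}} (hα : α < (Cardinal.aleph 1).ord)
    (hc : ∀ x ∈ cb B α, (Iic x).Countable) (A : Set (Cnd (cb B α))) (hA : ¬ A.Countable) :
    ∃ p ∈ A, ∃ q ∈ A, p ≠ q ∧ ∃ r, r ≤ p ∧ r ≤ q := by
  classical
  by_contra hcon
  push Not at hcon
  have hinc : ∀ p ∈ A, ∀ q ∈ A, p ≠ q →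
      (∃ a ∈ p.s, a ∉ q.s ∧ a ≤ q.k) ∨ ∃ a ∈ q.s, a ∉ p.s ∧ a ≤ p.k := by
    intro p hp q hq hpq
    by_contra h
    push Not at h
    obtain ⟨r, hr1, hr2⟩ := cnd_compat h.2 h.1
    exact hcon p hp q hq hpq r hr1 hr2
  obtain ⟨A1, R, hA1, hA1c, hR1, hR2⟩ :=
    Pool.Agent.Helper126.delta_system (fun p : Cnd (cb B α) => p.s) A hA
  obtain ⟨N, hN⟩ := Pool.Agent.Helper126.uncountable_fiber
    (fun p : Cnd (cb B α) => (p.s \ R).card) A1 hA1c
  set A2 : Set (Cnd (cb B α)) := {p ∈ A1 | (p.s \ R).card = N} with hA2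
  have hA2A : ∀ p ∈ A2, p ∈ A := fun p hp => hA1 hp.1
  have hdisj : ∀ p ∈ A2, ∀ q ∈ A2, p ≠ q → ∀ a ∈ p.s \ R, a ∉ q.s \ R := by
    intro p hp q hq hpq a ha ha'
    rw [Finset.mem_sdiff] at ha ha'
    exact ha.2 (hR2 p hp.1 q hq.1 hpq a ha.1 ha'.1)
  have hdiff : ∀ p ∈ A2, ∀ q ∈ A2, ∀ a ∈ p.s, a ∉ q.s → a ∈ p.s \ R := by
    intro p hp q hq a ha ha'
    rw [Finset.mem_sdiff]
    exact ⟨ha, fun h => ha' (hR1 q hq.1 h)⟩
  -- thinning out
  have hstep : ∀ S : Set (Cnd (cb B α)), S.Countable → ∃ p, p ∈ A2 ∧ p ∉ S ∧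
      ∀ q ∈ S, ∀ a ∈ p.s \ R, ¬ a ≤ q.k := by
    intro S hS
    have hZ : (⋃ q ∈ S, Iic q.k).Countable := hS.biUnion fun q _ => hc q.k q.hk
    have hbad : {p ∈ A2 | ∃ a ∈ p.s \ R, a ∈ ⋃ q ∈ S, Iic q.k}.Countable := by
      have h1 : ∀ p : {p : Cnd (cb B α) // p ∈ A2 ∧ ∃ a ∈ p.s \ R, a ∈ ⋃ q ∈ S, Iic q.k},
        ∃ a, a ∈ p.1.s \ R ∧ a ∈ ⋃ q ∈ S, Iic q.k := fun p => p.2.2
      choose z hz1 hz2 using h1
      have hinj : Function.Injective (fun p => (⟨z p, hz2 p⟩ : (⋃ q ∈ S, Iic q.k : Set B))) := by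
        intro p q h
        by_contra hne
        have h2 : z p = z q := congrArg Subtype.val h
        exact hdisj p.1 p.2.1 q.1 q.2.1 (fun h => hne (Subtype.ext h)) (z p) (hz1 p)
          (h2 ▸ hz1 q)
      have := hZ.to_subtype
      exact countable_coe_iff.1 hinj.countable
    have hex : ∃ p ∈ A2, p ∉ S ∧ ¬ ∃ a ∈ p.s \ R, a ∈ ⋃ q ∈ S, Iic q.k := by
      by_contra hno
      push Not at hno
      apply hN
      refine (hS.union hbad).mono fun p hp => ?_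
      by_cases h : p ∈ S
      · exact Or.inl h
      · exact Or.inr ⟨hp, hno p hp h⟩
    obtain ⟨p, hp, hpS, hpa⟩ := hex
    refine ⟨p, hp, hpS, fun q hq a ha h => hpa ⟨a, ha, mem_iUnion₂.2 ⟨q, hq, h⟩⟩⟩
  obtain ⟨f, hf⟩ := exists_om_seq hstep
  have hne : ∀ ξ ζ, ξ < ζ → f ξ ≠ f ζ := fun ξ ζ h h' => (hf ζ).2.1 (h' ▸ ⟨ξ, h, rfl⟩)
  refine no_pattern hα (b := fun ζ => (f ζ).k) (fun ζ => (f ζ).hk) hc
    (fun ξ => (f ξ).s \ R) (fun ξ => (hf ξ).1.2) (fun ξ a ha => ?_) (fun ξ ζ h => ?_) ?_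
  · exact (f ξ).hs a (Finset.mem_sdiff.1 ha).1
  · rcases lt_or_gt_of_ne h with h1 | h1
    · exact hdisj _ (hf ξ).1 _ (hf ζ).1 (hne ξ ζ h1)
    · exact hdisj _ (hf ξ).1 _ (hf ζ).1 (hne ζ ξ h1).symm
  · intro ξ ζ h
    rcases hinc (f ξ) (hA2A _ (hf ξ).1) (f ζ) (hA2A _ (hf ζ).1) (hne ξ ζ h) with
      ⟨a, ha, ha', hak⟩ | ⟨a, ha, ha', hak⟩
    · exact ⟨a, hdiff _ (hf ξ).1 _ (hf ζ).1 a ha ha', hak⟩
    · exact absurd hak ((hf ζ).2.2 (f ξ) ⟨ξ, h, rfl⟩ a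
        (hdiff _ (hf ζ).1 _ (hf ξ).1 a ha ha'))

/-- Under Martin's axiom for `ℵ₁` dense sets there is an uncountable set of atoms that is
almost disjoint from the last ideal. -/
theorem exists_discrete (hMA : MAAlephOne) {α : Ordinal.{0}} (hα : α < (Cardinal.aleph 1).ord)
    (hc : ∀ x ∈ cb B α, (Iic x).Countable) (hK : #{b // b ∈ cb B α} ≤ Cardinal.aleph 1)
    (hat : #{x : B // IsAtom x} = Cardinal.aleph 1) :
    ∃ D : Set B, ¬ D.Countable ∧ (∀ d ∈ D, IsAtom d) ∧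
      ∀ b ∈ cb B α, {d ∈ D | d ≤ b}.Finite := by
  classical
  rw [← mk_Om] at hat
  obtain ⟨g⟩ := Cardinal.eq.1 hat.symm
  let D1 : {b // b ∈ cb B α} → Set (Cnd (cb B α)) := fun b => {q | b.1 ≤ q.k}
  let D2 : Om → Set (Cnd (cb B α)) := fun γ => {q | ∃ a ∈ q.s, ∀ ξ < γ, a ≠ (g ξ).1}
  obtain ⟨G, hGne, hGup, hGdir, hGD⟩ := hMA (Cnd (cb B α)) (cnd_ccc hα hc)
    (range D1 ∪ range D2) (by
      refine (Cardinal.mk_union_le _ _).trans ?_
      refine (add_le_add ((Cardinal.mk_range_le).trans hK)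
        ((Cardinal.mk_range_le).trans mk_Om.le)).trans ?_
      rw [Cardinal.add_eq_self (Cardinal.aleph0_le_aleph 1)]) (by
      rintro d (⟨b, rfl⟩ | ⟨γ, rfl⟩) p
      · refine ⟨⟨p.s, p.hs, p.k ⊔ b.1, Ideal.sup_mem p.hk b.2⟩, ?_, ?_⟩
        · exact le_sup_right (a := p.k)
        · exact ⟨Finset.Subset.refl _, le_sup_left, fun a ha ha' => absurd ha ha'⟩
      · have h1 : ((fun ξ => (g ξ).1) '' Iio γ ∪ Iic p.k).Countable :=
          ((Iio_countable γ).image _).union (hc p.k p.hk)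
        obtain ⟨a, ha, ha'⟩ : ∃ a, IsAtom a ∧ a ∉ (fun ξ => (g ξ).1) '' Iio γ ∪ Iic p.k := by
          by_contra hno
          push Not at hno
          have h2 : Function.Injective (fun ξ : Om =>
              (⟨(g ξ).1, hno _ (g ξ).2⟩ :
                ((fun ξ => (g ξ).1) '' Iio γ ∪ Iic p.k : Set B))) := by
            intro ξ ζ h
            have h3 : (g ξ).1 = (g ζ).1 := Subtype.mk.inj h
            exact g.injective (Subtype.ext h3)
          have := h1.to_subtype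
          exact not_countable (α := Om) h2.countable
        refine ⟨⟨insert a p.s, fun x hx => ?_, p.k, p.hk⟩, ?_, ?_⟩
        · rcases Finset.mem_insert.1 hx with rfl | h
          · exact ha
          · exact p.hs x h
        · exact ⟨a, Finset.mem_insert_self _ _, fun ξ hξ h => ha' (Or.inl ⟨ξ, hξ, h.symm⟩)⟩
        · refine ⟨Finset.subset_insert _ _, le_rfl, fun x hx hx' => ?_⟩
          rcases Finset.mem_insert.1 hx with rfl | h
          · exact fun h => ha' (Or.inr h)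
          · exact absurd h hx')
  refine ⟨{a | ∃ q ∈ G, a ∈ q.s}, fun hcount => ?_, fun d ⟨q, _, hd⟩ => q.hs d hd, fun b hb => ?_⟩
  · have h1 : (g.symm '' {x | ∃ q ∈ G, x.1 ∈ q.s}).Countable := by
      refine Countable.image ?_ _
      exact (hcount.preimage Subtype.val_injective)
    obtain ⟨γ, hγ⟩ := countable_bdd h1
    obtain ⟨q, hqG, a, ha, hag⟩ := hGD (D2 γ) (Or.inr ⟨γ, rfl⟩)
    refine hag (g.symm ⟨a, q.hs a ha⟩) (hγ _ ⟨⟨a, q.hs a ha⟩, ⟨q, hqG, ha⟩, rfl⟩) ?_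
    rw [Equiv.apply_symm_apply]
  · obtain ⟨q, hqG, hqb⟩ := hGD (D1 ⟨b, hb⟩) (Or.inl ⟨_, rfl⟩)
    refine q.s.finite_toSet.subset ?_
    rintro d ⟨⟨q', hq'G, hd⟩, hdb⟩
    obtain ⟨r, _, hr1, hr2⟩ := hGdir q hqG q' hq'G
    by_contra hdq
    exact (cnd_le.1 hr1).2.2 d ((cnd_le.1 hr2).1 hd) hdq (hdb.trans hqb)

/-- Under Martin's axiom for `ℵ₁` dense sets no Boolean algebra with property (P) has cardinal
sequence `⟨ℵ₁, …, 1⟩` of countable length at least 2. -/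
theorem no_cardSeq (hMA : MAAlephOne) {α : Ordinal.{0}} (h1 : 1 < α)
    (hα : α < (Cardinal.aleph 1).ord) (hP : PropP B) : ¬ CardSeq B (Cardinal.aleph 1) α := by
  intro h
  have h0 : (0 : Ordinal.{0}) < α := zero_lt_one.trans h1
  have hc : ∀ x ∈ cb B α, (Iic x).Countable := fun x hx =>
    countable_below hP h.infinite_below hx
  have hK := card_cb hα (fun β hβ => (h.card_atoms β hβ).le) α le_rfl
  have hat : #{x : B // IsAtom x} = Cardinal.aleph 1 := by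
    rw [← atoms_zero (B := B), h.card_atoms 0 h0]
  obtain ⟨D, hD1, hD2, hD3⟩ := exists_discrete hMA hα hc hK hat
  exact no_discrete hP (h.infinite_below 1 h1) (prime_ideal h) D hD1 hD2 hD3

end Pool.Agent.W876.Cut
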