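import Pool.Agent.W876.Cut.Basic

/-!
The algebra of clopen subsets of `ω₁ + 1`.
-/

namespace Pool.Agent.W876.Cut

open scoped symmDiff Cardinal
open Order Set

/-- The well-ordered set `ω₁`. -/
abbrev Om : Type := (Cardinal.aleph 1).ord.ToType

theorem mk_Om : #Om = Cardinal.aleph 1 := Cardinal.mk_ord_toType _

instance : Uncountable Om := by
  rw [← Cardinal.aleph0_lt_mk_iff, mk_Om]
  exact Cardinal.aleph0_lt_aleph_one

theorem Iio_countable (x : Om) : (Iio x).Countable := by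
  have h : #(Iio x) < #Om := Cardinal.mk_Iio_lt x (by
    rw [mk_Om]
    exact (Ordinal.type_toType _).symm)
  have h2 : #(Iio x) < Order.succ Cardinal.aleph0 := by
    rw [Cardinal.succ_aleph0]
    exact h.trans_le mk_Om.le
  rw [← Cardinal.le_aleph0_iff_set_countable]
  exact Order.lt_succ_iff.1 h2

theorem Iic_countable (x : Om) : (Iic x).Countable := by
  rw [← Iio_union_right]
  exact (Iio_countable x).union (countable_singleton x)

theorem countable_bdd {s : Set Om} (hs : s.Countable) : ∃ γ, ∀ x ∈ s, x < γ := by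
  by_contra hcon
  push Not at hcon
  have h : (univ : Set Om) ⊆ ⋃ x ∈ s, Iic x := fun γ _ => by
    obtain ⟨x, hx, h⟩ := hcon γ
    exact mem_iUnion₂.2 ⟨x, hx, h⟩
  exact not_countable (countable_univ_iff.1 ((hs.biUnion fun x _ => Iic_countable x).mono h))

theorem exists_gt' (x : Om) : ∃ y, x < y := by
  obtain ⟨γ, h⟩ := countable_bdd (countable_singleton x)
  exact ⟨γ, h x rfl⟩

/-- Sets `b ⊆ ω₁` that are constant on a left neighbourhood of every point and eventually
constant: the traces on `ω₁` of the clopen subsets of `ω₁ + 1`. -/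
def clop : BooleanSubalgebra (Set Om) where
  carrier := {b | (∀ δ α : Om, α < δ → ∃ γ < δ, ∀ x, γ < x → x ≤ δ → (x ∈ b ↔ δ ∈ b)) ∧
    ∃ γ : Om, (∀ x, γ < x → x ∈ b) ∨ ∀ x, γ < x → x ∉ b}
  supClosed' := by
    rintro b ⟨hb, β, hβ⟩ c ⟨hc, β', hβ'⟩
    refine ⟨fun δ α h => ?_, ?_⟩
    · obtain ⟨γ, hγ, h1⟩ := hb δ α h
      obtain ⟨γ', hγ', h2⟩ := hc δ α h
      refine ⟨max γ γ', max_lt hγ hγ', fun x hx hxδ => ?_⟩
      have h3 := h1 x ((le_max_left _ _).trans_lt hx) hxδ
      have h4 := h2 x ((le_max_right _ _).trans_lt hx) hxδ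
      change (x ∈ b ∨ x ∈ c) ↔ (δ ∈ b ∨ δ ∈ c)
      rw [h3, h4]
    · refine ⟨max β β', ?_⟩
      rcases hβ with hβ | hβ
      · exact Or.inl fun x hx => Or.inl (hβ x ((le_max_left _ _).trans_lt hx))
      · rcases hβ' with hβ' | hβ'
        · exact Or.inl fun x hx => Or.inr (hβ' x ((le_max_right _ _).trans_lt hx))
        · refine Or.inr fun x hx h => ?_
          rcases h with h | h
          · exact hβ x ((le_max_left _ _).trans_lt hx) h
          · exact hβ' x ((le_max_right _ _).trans_lt hx) h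
  infClosed' := by
    rintro b ⟨hb, β, hβ⟩ c ⟨hc, β', hβ'⟩
    refine ⟨fun δ α h => ?_, ?_⟩
    · obtain ⟨γ, hγ, h1⟩ := hb δ α h
      obtain ⟨γ', hγ', h2⟩ := hc δ α h
      refine ⟨max γ γ', max_lt hγ hγ', fun x hx hxδ => ?_⟩
      have h3 := h1 x ((le_max_left _ _).trans_lt hx) hxδ
      have h4 := h2 x ((le_max_right _ _).trans_lt hx) hxδ
      change (x ∈ b ∧ x ∈ c) ↔ (δ ∈ b ∧ δ ∈ c)
      rw [h3, h4]
    · refine ⟨max β β', ?_⟩
      rcases hβ with hβ | hβ
      · rcases hβ' with hβ' | hβ'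
        · exact Or.inl fun x hx => ⟨hβ x ((le_max_left _ _).trans_lt hx),
            hβ' x ((le_max_right _ _).trans_lt hx)⟩
        · exact Or.inr fun x hx h => hβ' x ((le_max_right _ _).trans_lt hx) h.2
      · exact Or.inr fun x hx h => hβ x ((le_max_left _ _).trans_lt hx) h.1
  compl_mem' := by
    rintro b ⟨hb, β, hβ⟩
    refine ⟨fun δ α h => ?_, β, ?_⟩
    · obtain ⟨γ, hγ, h1⟩ := hb δ α h
      exact ⟨γ, hγ, fun x hx hxδ => not_congr (h1 x hx hxδ)⟩
    · rcases hβ with hβ | hβ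
      · exact Or.inr fun x hx h => h (hβ x hx)
      · exact Or.inl fun x hx => hβ x hx
  bot_mem' := by
    refine ⟨fun δ α h => ⟨α, h, fun x _ _ => Iff.rfl⟩, ?_⟩
    obtain ⟨x⟩ : Nonempty Om := inferInstance
    exact ⟨x, Or.inr fun x _ h => h⟩

/-- The algebra of clopen subsets of `ω₁ + 1`. -/
abbrev CO : Type := clop

theorem co_const (b : CO) {δ α : Om} (h : α < δ) :
    ∃ γ < δ, ∀ x, γ < x → x ≤ δ → (x ∈ (b : Set Om) ↔ δ ∈ (b : Set Om)) := b.2.1 δ α h

theorem co_ev (b : CO) : ∃ γ : Om, (∀ x, γ < x → x ∈ (b : Set Om)) ∨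
    ∀ x, γ < x → x ∉ (b : Set Om) := b.2.2

theorem Iic_mem (α : Om) : Iic α ∈ clop := by
  refine ⟨fun δ ε h => ?_, α, Or.inr fun x hx h => absurd hx (not_lt.2 h)⟩
  rcases le_or_gt δ α with h1 | h1
  · exact ⟨ε, h, fun x _ hx => iff_of_true (hx.trans h1) h1⟩
  · exact ⟨α, h1, fun x hx _ => iff_of_false (not_le.2 hx) (not_le.2 h1)⟩

/-- The clopen set `[0, α]`. -/
def ini (α : Om) : CO := ⟨Iic α, Iic_mem α⟩

theorem mem_ini {α x : Om} : x ∈ (ini α : Set Om) ↔ x ≤ α := Iff.rfl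

theorem co_le {b c : CO} : b ≤ c ↔ ∀ x ∈ (b : Set Om), x ∈ (c : Set Om) := Iff.rfl

theorem mem_co_inf {b c : CO} {x : Om} :
    x ∈ ((b ⊓ c : CO) : Set Om) ↔ x ∈ (b : Set Om) ∧ x ∈ (c : Set Om) := Iff.rfl

theorem mem_co_sup {b c : CO} {x : Om} :
    x ∈ ((b ⊔ c : CO) : Set Om) ↔ x ∈ (b : Set Om) ∨ x ∈ (c : Set Om) := Iff.rfl

theorem mem_co_sdiff {b c : CO} {x : Om} :
    x ∈ ((b \ c : CO) : Set Om) ↔ x ∈ (b : Set Om) ∧ x ∉ (c : Set Om) := Iff.rfl

theorem mem_co_bot {x : Om} : x ∉ ((⊥ : CO) : Set Om) := fun h => h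

theorem mem_co_top {x : Om} : x ∈ ((⊤ : CO) : Set Om) := trivial

theorem co_eq_bot {b : CO} : b = ⊥ ↔ ∀ x, x ∉ (b : Set Om) := by
  rw [eq_bot_iff, co_le]
  rfl

/-- The closed set of points not covered by an ideal. -/
def Fs (J : Ideal CO) : Set Om := {x | ∀ b ∈ J, x ∉ (b : Set Om)}

/-- Compactness. -/
theorem inf_ini_mem {J : Ideal CO} {b : CO} (δ : Om)
    (h : ∀ x ∈ (b : Set Om), x ≤ δ → x ∉ Fs J) : b ⊓ ini δ ∈ J := by
  induction δ using WellFoundedLT.induction with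
  | ind δ ih =>
    have ih' : ∀ γ < δ, b ⊓ ini γ ∈ J := fun γ hγ =>
      ih γ hγ fun x hx hxγ => h x hx (hxγ.trans hγ.le)
    by_cases hδ : δ ∈ (b : Set Om)
    · have h1 := h δ hδ le_rfl
      obtain ⟨j, hj, hδj⟩ : ∃ j ∈ J, δ ∈ (j : Set Om) := by
        by_contra hcon
        push Not at hcon
        exact h1 hcon
      by_cases hmin : ∃ α, α < δ
      · obtain ⟨α, hα⟩ := hmin
        obtain ⟨γ, hγ, h2⟩ := co_const j hα
        refine J.lower ?_ (Ideal.sup_mem (ih' γ hγ) hj)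
        rw [co_le]
        intro x hx
        rcases le_or_gt x γ with h3 | h3
        · exact Or.inl ⟨hx.1, h3⟩
        · exact Or.inr ((h2 x h3 hx.2).2 hδj)
      · refine J.lower ?_ hj
        rw [co_le]
        intro x hx
        rcases (show x ≤ δ from hx.2).lt_or_eq with h3 | h3
        · exact absurd ⟨x, h3⟩ hmin
        · rwa [h3]
    · by_cases hmin : ∃ α, α < δ
      · obtain ⟨α, hα⟩ := hmin
        obtain ⟨γ, hγ, h2⟩ := co_const b hα
        refine J.lower ?_ (ih' γ hγ)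
        rw [co_le]
        intro x hx
        rcases le_or_gt x γ with h3 | h3
        · exact ⟨hx.1, h3⟩
        · exact absurd ((h2 x h3 hx.2).1 hx.1) hδ
      · have h3 : b ⊓ ini δ = ⊥ := by
          rw [co_eq_bot]
          intro x hx
          rcases (show x ≤ δ from hx.2).lt_or_eq with h3 | h3
          · exact absurd ⟨x, h3⟩ hmin
          · exact hδ (h3 ▸ hx.1)
        rw [h3]
        exact J.bot_mem

theorem mem_of_bdd {J : Ideal CO} {b : CO} {δ : Om} (hb : ∀ x ∈ (b : Set Om), x ≤ δ)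
    (h : ∀ x ∈ (b : Set Om), x ∉ Fs J) : b ∈ J := by
  have h1 : b ⊓ ini δ = b := inf_eq_left.2 (co_le.2 hb)
  rw [← h1]
  exact inf_ini_mem δ fun x hx _ => h x hx

/-- The traces of clopen sets on `[0, δ]`. -/
def Tr (δ : Om) : Set (Set Om) := range fun b : CO => (b : Set Om) ∩ Iic δ

theorem Tr_countable (δ : Om) : (Tr δ).Countable := by
  induction δ using WellFoundedLT.induction with
  | ind δ ih =>
    have h1 : Tr δ ⊆ {∅, Iic δ} ∪ ⋃ γ ∈ Iio δ, (Tr γ ∪ (fun c => c ∪ Ioc γ δ) '' Tr γ) := by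
      rintro _ ⟨b, rfl⟩
      by_cases hmin : ∃ α, α < δ
      · right
        obtain ⟨α, hα⟩ := hmin
        obtain ⟨γ, hγ, h2⟩ := co_const b hα
        refine mem_iUnion₂.2 ⟨γ, hγ, ?_⟩
        by_cases hδ : δ ∈ (b : Set Om)
        · right
          refine ⟨_, ⟨b, rfl⟩, ?_⟩
          ext x
          simp only [mem_union, mem_inter_iff, mem_Iic, mem_Ioc]
          constructor
          · rintro (⟨h3, h4⟩ | ⟨h3, h4⟩)
            · exact ⟨h3, h4.trans hγ.le⟩
            · exact ⟨(h2 x h3 h4).2 hδ, h4⟩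
          · rintro ⟨h3, h4⟩
            rcases le_or_gt x γ with h5 | h5
            · exact Or.inl ⟨h3, h5⟩
            · exact Or.inr ⟨h5, h4⟩
        · left
          refine ⟨b, ?_⟩
          ext x
          simp only [mem_inter_iff, mem_Iic]
          constructor
          · rintro ⟨h3, h4⟩
            exact ⟨h3, h4.trans hγ.le⟩
          · rintro ⟨h3, h4⟩
            refine ⟨h3, not_lt.1 fun h5 => hδ ((h2 x h5 h4).1 h3)⟩
      · left
        have h3 : ∀ x, x ≤ δ → x = δ := fun x hx => by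
          rcases hx.lt_or_eq with h3 | h3
          · exact absurd ⟨x, h3⟩ hmin
          · exact h3
        by_cases hδ : δ ∈ (b : Set Om)
        · right
          ext x
          simp only [mem_inter_iff, mem_Iic]
          refine ⟨fun h => h.2, fun h => ⟨?_, h⟩⟩
          rwa [h3 x h]
        · left
          ext x
          simp only [mem_inter_iff, mem_Iic, mem_empty_iff_false, iff_false]
          rintro ⟨h, h'⟩
          rw [h3 x h'] at h
          exact hδ h
    refine Countable.mono h1 ((toFinite _).countable.union ?_)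
    exact (Iio_countable δ).biUnion fun γ hγ => (ih γ hγ).union ((ih γ hγ).image _)

theorem quo_countable {J : Ideal CO} {γ : Om} (h : ∀ x ∈ Fs J, x ≤ γ) : Countable (Quo J) := by
  have key : ∀ b c : CO, (b : Set Om) ∩ Iic γ = (c : Set Om) ∩ Iic γ →
      ((∃ β : Om, ∀ x, β < x → x ∈ (b : Set Om)) ↔ ∃ β : Om, ∀ x, β < x → x ∈ (c : Set Om)) →
      cls J b = cls J c := by
    intro b c hbc hev
    rw [cls_eq]
    have h1 : ∃ β : Om, ∀ x, β < x → (x ∈ (b : Set Om) ↔ x ∈ (c : Set Om)) := by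
      obtain ⟨β, hβ⟩ := co_ev b
      obtain ⟨β', hβ'⟩ := co_ev c
      obtain ⟨δ, hδ⟩ := countable_bdd ((countable_singleton β).insert β')
      have hδ1 : β < δ := hδ β (by simp)
      have hδ2 : β' < δ := hδ β' (by simp)
      obtain ⟨ε, hε⟩ := exists_gt' δ
      refine ⟨δ, fun x hx => ?_⟩
      by_cases hb : ∃ β : Om, ∀ x, β < x → x ∈ (b : Set Om)
      · have hc := hev.1 hb
        rcases hβ with hβ | hβ
        · rcases hβ' with hβ' | hβ'
          · exact iff_of_true (hβ x (hδ1.trans hx)) (hβ' x (hδ2.trans hx))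
          · exfalso
            obtain ⟨η, hη⟩ := hc
            obtain ⟨ζ, hζ⟩ := countable_bdd ((countable_singleton β').insert η)
            exact hβ' ζ (hζ β' (by simp)) (hη ζ (hζ η (by simp)))
        · exfalso
          obtain ⟨η, hη⟩ := hb
          obtain ⟨ζ, hζ⟩ := countable_bdd ((countable_singleton β).insert η)
          exact hβ ζ (hζ β (by simp)) (hη ζ (hζ η (by simp)))
      · have hc := (not_congr hev).1 hb
        rcases hβ with hβ | hβ
        · exact absurd ⟨β, hβ⟩ hb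
        · rcases hβ' with hβ' | hβ'
          · exact absurd ⟨β', hβ'⟩ hc
          · exact iff_of_false (hβ x (hδ1.trans hx)) (hβ' x (hδ2.trans hx))
    obtain ⟨β, hβ⟩ := h1
    have h2 : ∀ x ∈ ((b ∆ c : CO) : Set Om), ¬ (x ∈ (b : Set Om) ↔ x ∈ (c : Set Om)) := by
      intro x hx
      rcases hx with hx | hx
      · exact fun h => hx.2 (h.1 hx.1)
      · exact fun h => hx.2 (h.2 hx.1)
    refine mem_of_bdd (δ := β) (fun x hx => not_lt.1 fun h3 => h2 x hx (hβ x h3)) fun x hx hF => ?_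
    apply h2 x hx
    have h3 : x ≤ γ := h x hF
    have h4 : x ∈ (b : Set Om) ∩ Iic γ ↔ x ∈ (c : Set Om) ∩ Iic γ := by rw [hbc]
    exact ⟨fun h5 => (h4.1 ⟨h5, h3⟩).1, fun h5 => (h4.2 ⟨h5, h3⟩).1⟩
  have hcount := Tr_countable γ
  have : Countable (Tr γ) := hcount.to_subtype
  choose rep hrep using cls_surj J
  let t : Quo J → Tr γ × Prop := fun q => (⟨_, ⟨rep q, rfl⟩⟩,
    ∃ β : Om, ∀ x, β < x → x ∈ (rep q : Set Om))
  have ht : Function.Injective t := by
    intro q q' hqq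
    have h1 : ((rep q : Set Om) ∩ Iic γ) = ((rep q' : Set Om) ∩ Iic γ) :=
      congrArg (fun z : Tr γ × Prop => (z.1 : Set Om)) hqq
    have h2 : (∃ β : Om, ∀ x, β < x → x ∈ (rep q : Set Om)) =
        (∃ β : Om, ∀ x, β < x → x ∈ (rep q' : Set Om)) :=
      congrArg (fun z : Tr γ × Prop => z.2) hqq
    rw [← hrep q, ← hrep q']
    exact key _ _ h1 (iff_of_eq h2)
  exact ht.countable

end Pool.Agent.W876.Cut
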