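import Pool.Agent.W876.Cut.Iso

/-!
The cardinal sequence of the algebra of clopen subsets of `ω₁ + 1`.
-/

namespace Pool.Agent.W876.Cut

open scoped symmDiff Cardinal
open Order Set

universe u v

/-- The ordinal of a point of `Om`. -/
noncomputable def oo (x : Om) : Ordinal.{0} := (Ordinal.ToType.mk.symm x).1

theorem oo_lt (x : Om) : oo x < (Cardinal.aleph 1).ord := (Ordinal.ToType.mk.symm x).2

theorem oo_lt_oo {x y : Om} : oo x < oo y ↔ x < y := by
  change (Ordinal.ToType.mk.symm x) < (Ordinal.ToType.mk.symm y) ↔ _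
  exact (Ordinal.ToType.mk.symm).lt_iff_lt

theorem exists_oo {a : Ordinal.{0}} (h : a < (Cardinal.aleph 1).ord) : ∃ x, oo x = a :=
  ⟨Ordinal.ToType.mk ⟨a, h⟩, by simp [oo]⟩

open Ordinal in
/-- No member of the `β`-th ideal contains a nonzero multiple of `ω ^ β`. -/
theorem not_mem_of_dvd (β : Ordinal.{0}) :
    ∀ b ∈ cb CO β, ∀ x ∈ (b : Set Om), ω ^ β ∣ oo x → oo x = 0 := by
  induction β using WellFoundedLT.induction with
  | ind β ih =>
    intro b hb x hx hdvd
    by_contra hx0
    rcases mem_cb_iff.1 hb with rfl | ⟨γ, hγ, hfin⟩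
    · exact mem_co_bot hx
    · set P : Set Om := {y | ω ^ γ ∣ oo y ∧ oo y ≠ 0} with hP
      have hI : ∀ c ∈ cb CO γ, ∀ y ∈ P, y ∉ (c : Set Om) := fun c hc y hy hyc =>
        hy.2 (ih γ hγ c hc y hyc hy.1)
      -- every class below a finite join of atoms has a representative with finitely many points
      have key : ∃ a : CO, cls (cb CO γ) a = cls (cb CO γ) b ∧ ((a : Set Om) ∩ P).Finite := by
        obtain ⟨s, hs, hbs⟩ := hfin
        rw [hbs]
        refine Finset.sup_induction (p := fun q => ∃ a : CO, cls (cb CO γ) a = q ∧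
          ((a : Set Om) ∩ P).Finite) ?_ ?_ ?_
        · refine ⟨⊥, cls_bot, ?_⟩
          refine Set.finite_empty.subset ?_
          rintro y ⟨hy, _⟩
          exact mem_co_bot hy
        · rintro _ ⟨a, rfl, ha⟩ _ ⟨c, rfl, hc⟩
          refine ⟨a ⊔ c, cls_sup a c, ?_⟩
          refine (ha.union hc).subset ?_
          rintro y ⟨hy | hy, hyP⟩
          · exact Or.inl ⟨hy, hyP⟩
          · exact Or.inr ⟨hy, hyP⟩
        · intro q hq
          obtain ⟨a, rfl⟩ := cls_surj _ q
          refine ⟨a, rfl, ?_⟩
          have hatom := hs _ hq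
          refine Set.Subsingleton.finite ?_
          have hlt : ∀ y z : Om, y ∈ (a : Set Om) → y ∈ P → z ∈ (a : Set Om) → z ∈ P →
              ¬ y < z := by
            intro y z hy hyP hz hzP hyz
            rcases hatom.le_iff.1 (show cls (cb CO γ) (a ⊓ ini y) ≤ cls (cb CO γ) a from by
              rw [cls_le]; exact sdiff_mem_of_le _ inf_le_left) with h | h
            · rw [cls_eq_bot] at h
              exact hI _ h y hyP ⟨hy, le_refl y⟩
            · have h1 : a \ (a ⊓ ini y) ∈ cb CO γ := symm_right (cls_eq.1 h)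
              exact hI _ h1 z hzP ⟨hz, fun h2 => absurd h2.2 (not_le.2 hyz)⟩
          intro y hy z hz
          rcases lt_trichotomy y z with h | h | h
          · exact absurd h (hlt y z hy.1 hy.2 hz.1 hz.2)
          · exact h
          · exact absurd h (hlt z y hz.1 hz.2 hy.1 hy.2)
      obtain ⟨a, ha, hafin⟩ := key
      have hbfin : ((b : Set Om) ∩ P).Finite := by
        refine hafin.subset ?_
        rintro y ⟨hy, hyP⟩
        refine ⟨?_, hyP⟩
        by_contra hya
        exact hI _ (symm_right (cls_eq.1 ha)) y hyP ⟨hy, hya⟩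
      -- but there are infinitely many points
      obtain ⟨x₀, hx₀⟩ : ∃ x₀ : Om, oo x₀ = 0 := exists_oo (by
        rw [Cardinal.lt_ord, Ordinal.card_zero]
        exact (Cardinal.aleph_pos 1))
      have hx₀x : x₀ < x := by
        rw [← oo_lt_oo, hx₀]
        exact pos_iff_ne_zero.2 hx0
      obtain ⟨t, ht, hconst⟩ := co_const b hx₀x
      have hpos : (ω ^ γ : Ordinal.{0}) ≠ 0 := (Ordinal.opow_pos γ omega0_pos).ne'
      have h1 : ω ^ (γ + 1) ∣ oo x :=
        (Ordinal.opow_dvd_opow ω (Order.add_one_le_iff.2 hγ)).trans hdvd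
      obtain ⟨ξ, hξ⟩ := h1
      rw [opow_add, opow_one, mul_assoc] at hξ
      have hξ0 : ξ ≠ 0 := by
        rintro rfl
        rw [mul_zero, mul_zero] at hξ
        exact hx0 hξ
      have hlim : IsSuccLimit (ω * ξ) :=
        isSuccLimit_mul_left isSuccLimit_omega0 (pos_iff_ne_zero.2 hξ0)
      have h2 : oo t / ω ^ γ < ω * ξ := by
        rw [← Ordinal.lt_mul_iff_div_lt hpos, ← hξ]
        exact oo_lt_oo.2 ht
      have h3 : ∀ n : ℕ, oo t / ω ^ γ + 1 + n < ω * ξ := by
        intro n
        induction n with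
        | zero =>
          rw [Nat.cast_zero, add_zero]
          exact hlim.add_one_lt h2
        | succ n ihn =>
          have := hlim.add_one_lt ihn
          rw [Nat.cast_succ, ← add_assoc]
          exact this
      have h4 : ∀ n : ℕ, ω ^ γ * (oo t / ω ^ γ + 1 + n) < oo x := by
        intro n
        rw [hξ]
        exact (mul_lt_mul_iff_right₀ (pos_iff_ne_zero.2 hpos)).2 (h3 n)
      have h5 : ∀ n : ℕ, ∃ y, oo y = ω ^ γ * (oo t / ω ^ γ + 1 + n) := fun n =>
        exists_oo ((h4 n).trans (oo_lt x))
      choose y hy using h5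
      have hyinj : Function.Injective y := by
        intro m n hmn
        have h6 : ω ^ γ * (oo t / ω ^ γ + 1 + m) = ω ^ γ * (oo t / ω ^ γ + 1 + n) := by
          rw [← hy, ← hy, hmn]
        have h7 := mul_left_cancel₀ hpos h6
        exact_mod_cast add_left_cancel h7
      have hmem : ∀ n, y n ∈ (b : Set Om) ∩ P := by
        intro n
        have h6 : oo t < oo (y n) := by
          rw [hy]
          refine (lt_mul_succ_div (oo t) hpos).trans_le ?_
          refine mul_le_mul_right ?_ _
          rw [← Order.succ_eq_add_one]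
          exact le_self_add
        have h7 : oo (y n) < oo x := by
          rw [hy]
          exact h4 n
        refine ⟨(hconst (y n) (oo_lt_oo.1 h6) (oo_lt_oo.1 h7).le).2 hx, ?_, ?_⟩
        · rw [hy]
          exact dvd_mul_right _ _
        · exact (h6.trans_le' zero_le).ne'
      exact (Set.infinite_of_injective_forall_mem hyinj hmem) hbfin

end Pool.Agent.W876.Cut
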