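import Pool.Agent.W876.Cut.Seq

/-!
The cardinal sequence of the algebra of clopen subsets of `ω₁ + 1`, continued.
-/

namespace Pool.Agent.W876.Cut

open scoped symmDiff Cardinal
open Order Set

universe u v

open Ordinal in
/-- Arbitrarily large nonzero multiples of `ω ^ β`. -/
theorem exists_mult {β : Ordinal.{0}} (hβ : β < (Cardinal.aleph 1).ord) (t : Om) :
    ∃ x, t < x ∧ ω ^ β ∣ oo x ∧ oo x ≠ 0 := by
  have hc : Cardinal.aleph0 ≤ Cardinal.aleph 1 := Cardinal.aleph0_le_aleph 1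
  have hlim : IsSuccLimit (Cardinal.aleph 1).ord := Cardinal.isSuccLimit_ord hc
  have hω : (ω : Ordinal.{0}) < (Cardinal.aleph 1).ord := by
    rw [← Cardinal.ord_aleph0, Cardinal.ord_lt_ord]
    exact Cardinal.aleph0_lt_aleph_one
  have h1 : ω ^ β < (Cardinal.aleph 1).ord := isPrincipal_opow_ord hc hω hβ
  have h2 : oo t + 1 < (Cardinal.aleph 1).ord := hlim.add_one_lt (oo_lt t)
  obtain ⟨x, hx⟩ := exists_oo (isPrincipal_mul_ord hc h1 h2)
  have h3 : oo t < oo x := by
    rw [hx]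
    refine (lt_add_one (oo t)).trans_le ?_
    exact Ordinal.le_mul_right _ (Ordinal.opow_pos β omega0_pos)
  refine ⟨x, oo_lt_oo.1 h3, ?_, (h3.trans_le' zero_le).ne'⟩
  rw [hx]
  exact dvd_mul_right _ _

theorem Fs_unbounded {β : Ordinal.{0}} (hβ : β < (Cardinal.aleph 1).ord) (t : Om) :
    ∃ x ∈ Fs (cb CO β), t < x := by
  obtain ⟨x, hx, hdvd, h0⟩ := exists_mult hβ t
  exact ⟨x, fun b hb hxb => h0 (not_mem_of_dvd β b hb x hxb hdvd), hx⟩

theorem ini_injective : Function.Injective ini := by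
  intro x y h
  have h1 : x ∈ (ini y : Set Om) := by
    rw [← h]
    exact le_refl x
  have h2 : y ∈ (ini x : Set Om) := by
    rw [h]
    exact le_refl y
  exact le_antisymm h1 h2

instance : Uncountable CO := ini_injective.uncountable

theorem card_atoms_co : #{x : CO // IsAtom x} = Cardinal.aleph 1 := by
  apply le_antisymm
  · have hne : ∀ a : {x : CO // IsAtom x}, ∃ y, y ∈ (a.1 : Set Om) := by
      intro a
      by_contra hcon
      push Not at hcon
      exact a.2.1 (co_eq_bot.2 hcon)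
    choose f hf using hne
    have hinj : Function.Injective f := by
      intro a c hac
      have h1 : a.1 ⊓ c.1 ≠ ⊥ := fun h => by
        refine co_eq_bot.1 h (f a) ⟨hf a, ?_⟩
        rw [hac]
        exact hf c
      apply Subtype.ext
      have h2 : a.1 ⊓ c.1 = a.1 := (a.2.le_iff.1 inf_le_left).resolve_left h1
      have h3 : a.1 ⊓ c.1 = c.1 := (c.2.le_iff.1 inf_le_right).resolve_left h1
      rw [← h2, h3]
    rw [← mk_Om]
    exact Cardinal.mk_le_of_injective hinj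
  · have hs : ∀ x : Om, ∃ s, x < s ∧ ∀ y, x < y → s ≤ y := by
      intro x
      have hne : (Ioi x).Nonempty := exists_gt' x
      exact ⟨(wellFounded_lt (α := Om)).min _ hne, (wellFounded_lt (α := Om)).min_mem _ hne,
        fun t ht => not_lt.1 ((wellFounded_lt (α := Om)).not_lt_min (Ioi x) ht)⟩
    choose s hs1 hs2 using hs
    have hmem : ∀ x y : Om, y ∈ ((ini (s x) \ ini x : CO) : Set Om) ↔ y = s x := by
      intro x y
      rw [mem_co_sdiff, mem_ini, mem_ini, not_le]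
      constructor
      · rintro ⟨h1, h2⟩
        exact le_antisymm h1 (hs2 x y h2)
      · rintro rfl
        exact ⟨le_rfl, hs1 x⟩
    have hatom : ∀ x : Om, IsAtom (ini (s x) \ ini x : CO) := by
      intro x
      refine ⟨fun h => co_eq_bot.1 h (s x) ((hmem x (s x)).2 rfl), fun c hc => ?_⟩
      rw [co_eq_bot]
      intro y hy
      have h1 : y = s x := (hmem x y).1 (co_le.1 hc.le y hy)
      refine absurd (co_le.2 fun z hz => ?_) (not_le_of_gt hc)
      rw [(hmem x z).1 hz, ← h1]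
      exact hy
    have hinj : Function.Injective
        (fun x : Om => (⟨ini (s x) \ ini x, hatom x⟩ : {x : CO // IsAtom x})) := by
      intro x y hxy
      have h1 : (ini (s x) \ ini x : CO) = ini (s y) \ ini y := congrArg Subtype.val hxy
      have h2 : s x = s y := by
        rw [← hmem, ← h1]
        exact (hmem x (s x)).2 rfl
      rcases lt_trichotomy x y with h | h | h
      · exact absurd (h2.symm.le.trans (hs2 x y h)) (not_le.2 (hs1 y))
      · exact h
      · exact absurd (h2.le.trans (hs2 y x h)) (not_le.2 (hs1 x))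
    rw [← mk_Om]
    exact Cardinal.mk_le_of_injective hinj

theorem finJoin_of_two {B : Type u} [BooleanAlgebra B] {q : B} (h : ∀ y ≤ q, y = ⊥ ∨ y = q) :
    FinJoin q := by
  rcases eq_or_ne q ⊥ with h0 | h0
  · rw [h0]
    exact finJoin_bot
  · exact finJoin_atom ⟨h0, fun y hy => (h y hy.le).resolve_right hy.ne⟩

theorem ini_mem_cb (δ : Om) : ∃ β : Ordinal.{0}, β < (Cardinal.aleph 1).ord ∧ ini δ ∈ cb CO β := by
  have hc : Cardinal.aleph0 ≤ Cardinal.aleph 1 := Cardinal.aleph0_le_aleph 1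
  have hlim : IsSuccLimit (Cardinal.aleph 1).ord := Cardinal.isSuccLimit_ord hc
  induction δ using WellFoundedLT.induction with
  | ind δ ih =>
    have ih' : ∀ γ : Iio δ, ∃ β : Ordinal.{0}, β < (Cardinal.aleph 1).ord ∧
        ini γ.1 ∈ cb CO β := fun γ => ih γ.1 γ.2
    choose f hf1 hf2 using ih'
    have hcount : Countable (Iio δ) := (Iio_countable δ).to_subtype
    have hsup : ⨆ γ, f γ < (Cardinal.aleph 1).ord := by
      have h1 : ∀ γ, f γ < Ordinal.omega 1 := fun γ => (hf1 γ).trans_eq (Cardinal.ord_aleph 1)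
      exact (Ordinal.iSup_lt_omega_one h1).trans_eq (Cardinal.ord_aleph 1).symm
    have hmem : ∀ γ < δ, ini γ ∈ cb CO (⨆ γ, f γ) := fun γ hγ =>
      cb_mono (Ordinal.le_iSup f ⟨γ, hγ⟩) (hf2 ⟨γ, hγ⟩)
    refine ⟨(⨆ γ, f γ) + 1, hlim.add_one_lt hsup, ?_⟩
    rw [cb_add_one, mem_nextIdeal]
    refine finJoin_of_two fun q hq => ?_
    obtain ⟨c', rfl⟩ := cls_surj _ q
    obtain ⟨c, hc1, hc2⟩ : ∃ c : CO, cls (cb CO (⨆ γ, f γ)) c = cls (cb CO (⨆ γ, f γ)) c' ∧
        ∀ x ∈ (c : Set Om), x ≤ δ := by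
      refine ⟨c' ⊓ ini δ, ?_, fun x hx => hx.2⟩
      rw [cls_inf]
      exact inf_eq_left.2 hq
    rw [← hc1] at hq ⊢
    by_cases hδ : δ ∈ (c : Set Om)
    · right
      apply le_antisymm hq
      rw [cls_le]
      by_cases hmin : ∃ α, α < δ
      · obtain ⟨α, hα⟩ := hmin
        obtain ⟨γ, hγ, h2⟩ := co_const c hα
        refine (cb CO _).lower ?_ (hmem γ hγ)
        rw [co_le]
        intro x hx
        exact not_lt.1 fun h3 => hx.2 ((h2 x h3 hx.1).2 hδ)
      · have h3 : ini δ ≤ c := co_le.2 fun x hx => by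
          rcases (show x ≤ δ from hx).lt_or_eq with h3 | h3
          · exact absurd ⟨x, h3⟩ hmin
          · rwa [h3]
        exact sdiff_mem_of_le _ h3
    · left
      rw [cls_eq_bot]
      by_cases hmin : ∃ α, α < δ
      · obtain ⟨α, hα⟩ := hmin
        obtain ⟨γ, hγ, h2⟩ := co_const c hα
        refine (cb CO _).lower ?_ (hmem γ hγ)
        rw [co_le]
        intro x hx
        exact not_lt.1 fun h3 => hδ ((h2 x h3 (hc2 x hx)).1 hx)
      · have h3 : c = ⊥ := co_eq_bot.2 fun x hx => by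
          rcases (hc2 x hx).lt_or_eq with h3 | h3
          · exact absurd ⟨x, h3⟩ hmin
          · exact hδ (h3 ▸ hx)
        rw [h3]
        exact Ideal.bot_mem _

theorem mem_cb_omega {b : CO} :
    b ∈ cb CO ((Cardinal.aleph 1).ord : Ordinal.{0}) ↔ ∃ γ : Om, ∀ x ∈ (b : Set Om), x ≤ γ := by
  have hc : Cardinal.aleph0 ≤ Cardinal.aleph 1 := Cardinal.aleph0_le_aleph 1
  have hlim : IsSuccLimit (Cardinal.aleph 1).ord := Cardinal.isSuccLimit_ord hc
  constructor
  · intro hb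
    obtain ⟨β, hβ, hb⟩ := (mem_cb_limit hlim).1 hb
    obtain ⟨γ, hγ⟩ := co_ev b
    rcases hγ with hγ | hγ
    · exfalso
      obtain ⟨x, hx, hdvd, h0⟩ := exists_mult hβ γ
      exact h0 (not_mem_of_dvd β b hb x (hγ x hx) hdvd)
    · exact ⟨γ, fun x hx => not_lt.1 fun h => hγ x h hx⟩
  · rintro ⟨γ, hγ⟩
    obtain ⟨β, hβ, h⟩ := ini_mem_cb γ
    exact (mem_cb_limit hlim).2 ⟨β, hβ, (cb CO β).lower ((co_le (c := ini γ)).2 hγ) h⟩

/-- A Boolean algebra with exactly two elements. -/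
theorem two_elements {B : Type u} [BooleanAlgebra B] (h : ∀ q : B, q = ⊥ ∨ q = ⊤)
    (h' : (⊥ : B) ≠ ⊤) : Finite B ∧ #{x : B // IsAtom x} = 1 ∧ FinJoin (⊤ : B) := by
  have hatom : IsAtom (⊤ : B) := ⟨h'.symm, fun y hy => (h y).resolve_right hy.ne⟩
  refine ⟨?_, ?_, finJoin_atom hatom⟩
  · refine Finite.of_finite_univ ((toFinite ({⊥, ⊤} : Set B)).subset fun q _ => ?_)
    rcases h q with h | h
    · exact Or.inl h
    · exact Or.inr h
  · rw [Cardinal.eq_one_iff_unique]
    refine ⟨⟨fun x y => Subtype.ext ?_⟩, ⟨⟨⊤, hatom⟩⟩⟩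
    rw [(h x.1).resolve_left x.2.1, (h y.1).resolve_left y.2.1]

theorem quo_omega_two :
    (∀ q : Quo (cb CO ((Cardinal.aleph 1).ord : Ordinal.{0})), q = ⊥ ∨ q = ⊤) ∧
    (⊥ : Quo (cb CO ((Cardinal.aleph 1).ord : Ordinal.{0}))) ≠ ⊤ := by
  constructor
  · intro q
    obtain ⟨b, rfl⟩ := cls_surj _ q
    obtain ⟨γ, hγ⟩ := co_ev b
    rcases hγ with hγ | hγ
    · right
      rw [eq_top_iff, ← cls_top, cls_le, mem_cb_omega]
      exact ⟨γ, fun x hx => not_lt.1 fun h => hx.2 (hγ x h)⟩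
    · left
      rw [cls_eq_bot, mem_cb_omega]
      exact ⟨γ, fun x hx => not_lt.1 fun h => hγ x h hx⟩
  · intro h
    have h1 : (⊤ : CO) ∈ cb CO ((Cardinal.aleph 1).ord : Ordinal.{0}) := by
      rw [← cls_eq_bot, cls_top, h]
    obtain ⟨γ, hγ⟩ := mem_cb_omega.1 h1
    obtain ⟨y, hy⟩ := exists_gt' γ
    exact absurd (hγ y mem_co_top) (not_le.2 hy)

theorem cardSeq_co :
    CardSeq CO (Cardinal.aleph 1) ((Cardinal.aleph 1).ord : Ordinal.{0}) := by
  have hiso : ∀ β < ((Cardinal.aleph 1).ord : Ordinal.{0}), Nonempty (Quo (cb CO β) ≃o CO) := fun β hβ =>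
    quo_iso_co (Fs_unbounded hβ)
  obtain ⟨h1, h2⟩ := quo_omega_two
  obtain ⟨h3, h4, h5⟩ := two_elements h1 h2
  refine ⟨⟨(Cardinal.aleph 1).ord + 1, ?_⟩, h3, fun β hβ => ?_, fun β hβ => ?_, h4⟩
  · rw [eq_top_iff]
    intro b _
    rw [cb_add_one, mem_nextIdeal]
    exact finJoin_of_le h5 le_top
  · obtain ⟨e⟩ := hiso β hβ
    exact e.toEquiv.infinite_iff.2 inferInstance
  · obtain ⟨e⟩ := hiso β hβ
    rw [← card_atoms_co]
    exact Cardinal.mk_congr (e.toEquiv.subtypeEquiv fun a => (e.isAtom_iff a).symm)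

end Pool.Agent.W876.Cut
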