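import Pool.Agent.W876.Cut.Card

/-!
The ultrafilter argument behind the countable chain condition.
-/

namespace Pool.Agent.W876.Cut

open scoped symmDiff Cardinal
open Order Set Filter

variable {B : Type} [BooleanAlgebra B]

/-- Ultrafilters of a Boolean algebra. -/
structure UF (p : Set B) : Prop where
  inf_iff : ∀ a b, a ⊓ b ∈ p ↔ a ∈ p ∧ b ∈ p
  compl_iff : ∀ a, aᶜ ∈ p ↔ a ∉ p

theorem UF.up {p : Set B} (h : UF p) {a b : B} (hab : a ≤ b) (ha : a ∈ p) : b ∈ p := by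
  have h1 := h.inf_iff a b
  rw [inf_eq_left.2 hab] at h1
  exact (h1.1 ha).2

theorem UF.bot_notMem {p : Set B} (h : UF p) : ⊥ ∉ p := fun hb => by
  have h1 : (⊤ : B) ∈ p := h.up bot_le hb
  have h2 : (⊤ : B)ᶜ ∈ p := by rwa [compl_top]
  exact (h.compl_iff ⊤).1 h2 h1

theorem UF.sup_iff {p : Set B} (h : UF p) (a b : B) : a ⊔ b ∈ p ↔ a ∈ p ∨ b ∈ p := by
  have h1 := h.compl_iff (a ⊔ b)
  rw [compl_sup, h.inf_iff, h.compl_iff, h.compl_iff] at h1
  tauto

theorem UF.sdiff {p : Set B} (h : UF p) {a b : B} (ha : a ∈ p) (hb : a \ b ∉ p) : b ∈ p := by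
  by_contra hcon
  apply hb
  rw [_root_.sdiff_eq, h.inf_iff, h.compl_iff]
  exact ⟨ha, hcon⟩

theorem uf_lim {p : ℕ → Set B} (hp : ∀ n, UF (p n)) (U : Ultrafilter ℕ) :
    UF {b | ∀ᶠ n in U, b ∈ p n} := by
  constructor
  · intro a b
    simp only [mem_ofPred_eq, (hp _).inf_iff, eventually_and]
  · intro a
    simp only [mem_ofPred_eq, (hp _).compl_iff, Ultrafilter.eventually_not]

/-- The inductive statement. -/
def CC (α : Ordinal.{0}) (N : ℕ) (b : Om → B) (β : Ordinal.{0}) : Prop :=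
  ∀ E : Set B, E.Countable → (∀ e ∈ E, e ∈ cb B α) → ∃ p : Fin N → Set B, (∀ i, UF (p i)) ∧
    (∀ i, ∀ x ∈ cb B β, x ∉ p i) ∧ (∀ i, ∀ e ∈ E, e ∉ p i) ∧
    ∃ γ : Om, ∀ ζ, γ < ζ → ∃ i, b ζ ∈ p i

theorem exists_seq_cofinal {β : Ordinal.{0}} (h0 : 0 < β) (hβ : (Iio β).Countable) :
    ∃ s : ℕ → Ordinal.{0}, (∀ n, s n < β) ∧ ∀ γ < β, ∃ N, ∀ n ≥ N, γ ≤ s n := by
  have hc : Countable (Iio β) := hβ.to_subtype
  have hne : Nonempty (Iio β) := ⟨⟨0, h0⟩⟩
  obtain ⟨f, hf⟩ := exists_surjective_nat (Iio β)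
  refine ⟨fun n => (Finset.range (n + 1)).sup fun i => (f i).1, fun n => ?_, fun γ hγ => ?_⟩
  · rw [Finset.sup_lt_iff (by simpa using h0)]
    exact fun i _ => (f i).2
  · obtain ⟨n, hn⟩ := hf ⟨γ, hγ⟩
    refine ⟨n, fun m hm => ?_⟩
    have h1 : (f n).1 ≤ (Finset.range (m + 1)).sup fun i => (f i).1 :=
      Finset.le_sup (f := fun i => (f i).1) (Finset.mem_range.2 (Nat.lt_succ_of_le hm))
    rwa [hn] at h1

theorem cc_step {α : Ordinal.{0}} {N : ℕ} {b : Om → B} {β : Ordinal.{0}} (h0 : 0 < β)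
    (hβα : β ≤ α) (hβ : (Iio β).Countable) (ih : ∀ γ < β, CC α N b γ) : CC α N b β := by
  intro E hE hEK
  obtain ⟨s, hs1, hs2⟩ := exists_seq_cofinal h0 hβ
  let St := {E : Set B // E.Countable ∧ ∀ e ∈ E, e ∈ cb B α}
  choose P hP1 hP2 hP3 hP4 using fun (n : ℕ) (E : St) => ih (s n) (hs1 n) E.1 E.2.1 E.2.2
  have hc : ∀ q : Set B, ∃ c, c ∈ cb B α ∧ ((∃ x ∈ cb B α, x ∈ q) → c ∈ q) := by
    intro q
    by_cases h : ∃ x ∈ cb B α, x ∈ q
    · obtain ⟨x, hx, hxq⟩ := h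
      exact ⟨x, hx, fun _ => hxq⟩
    · exact ⟨⊥, Ideal.bot_mem _, fun h' => absurd h' h⟩
  choose c hc1 hc2 using hc
  let next : ℕ → St → St := fun n E => ⟨E.1 ∪ range (fun i => c (P n E i)),
    E.2.1.union (countable_range _), by
      rintro e (he | ⟨i, rfl⟩)
      · exact E.2.2 e he
      · exact hc1 _⟩
  let F : ℕ → St := fun n => Nat.rec ⟨E, hE, hEK⟩ (fun n E => next n E) n
  have hF0 : (F 0).1 = E := rfl
  have hFs : ∀ n, (F (n + 1)).1 = (F n).1 ∪ range (fun i => c (P n (F n) i)) := fun n => rfl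
  have hFm : Monotone fun n => (F n).1 := monotone_nat_of_le_succ fun n => by
    change (F n).1 ⊆ (F (n + 1)).1
    rw [hFs]
    exact subset_union_left
  let p : ℕ → Fin N → Set B := fun n => P n (F n)
  have hp : ∀ n i, UF (p n i) := fun n i => hP1 n (F n) i
  have key : ∀ n m i, n < m → (∃ x ∈ cb B α, x ∈ p n i) → ∃ x, x ∈ p n i ∧ x ∉ p m i := by
    intro n m i hnm h
    refine ⟨c (p n i), hc2 _ h, hP3 m (F m) i _ ?_⟩
    apply hFm (Nat.succ_le_of_lt hnm)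
    change c (p n i) ∈ (F (n + 1)).1
    rw [hFs]
    exact Or.inr ⟨i, rfl⟩
  let U : Ultrafilter ℕ := hyperfilter ℕ
  refine ⟨fun i => {x | ∀ᶠ n in U, x ∈ p n i}, fun i => uf_lim (fun n => hp n i) U, ?_, ?_, ?_⟩
  · intro i x hx hxU
    rcases mem_cb_iff.1 hx with rfl | ⟨γ, hγ, hfin⟩
    · obtain ⟨n, hn⟩ := Eventually.exists hxU
      exact (hp n i).bot_notMem hn
    · obtain ⟨N0, hN0⟩ := hs2 γ hγ
      have hI : ∀ n ≥ N0, ∀ y ∈ cb B γ, y ∉ p n i := fun n hn y hy =>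
        hP2 n (F n) i y (cb_mono (hN0 n hn) hy)
      have hex : ∃ a, cls (cb B γ) a = cls (cb B γ) x ∧ {n | N0 ≤ n ∧ a ∈ p n i}.Finite := by
        obtain ⟨s, hs, hxs⟩ := hfin
        have hle : ∀ q ∈ s, q ≤ cls (cb B γ) x := fun q hq => by
          rw [hxs]
          exact Finset.le_sup (f := id) hq
        rw [hxs]
        refine Finset.sup_induction (p := fun q => ∃ a, cls (cb B γ) a = q ∧
          {n | N0 ≤ n ∧ a ∈ p n i}.Finite) ?_ ?_ ?_
        · refine ⟨⊥, cls_bot, finite_empty.subset ?_⟩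
          rintro n ⟨_, hn⟩
          exact (hp n i).bot_notMem hn
        · rintro _ ⟨a, rfl, ha⟩ _ ⟨a', rfl, ha'⟩
          refine ⟨a ⊔ a', cls_sup a a', (ha.union ha').subset ?_⟩
          rintro n ⟨hn, hn'⟩
          rcases ((hp n i).sup_iff a a').1 hn' with h | h
          · exact Or.inl ⟨hn, h⟩
          · exact Or.inr ⟨hn, h⟩
        · intro q hq
          obtain ⟨a₀, rfl⟩ := cls_surj _ q
          have hatom := hs _ hq
          have hacls : cls (cb B γ) (a₀ ⊓ x) = cls (cb B γ) a₀ := by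
            rw [cls_inf]
            exact inf_eq_left.2 (hle _ hq)
          rw [id_eq]
          rw [← hacls] at hatom ⊢
          set a := a₀ ⊓ x with ha
          refine ⟨a, rfl, ?_⟩
          have haK : a ∈ cb B α := (cb B α).lower inf_le_right (cb_mono hβα hx)
          have hlt : ∀ n m, N0 ≤ n → a ∈ p n i → N0 ≤ m → a ∈ p m i → ¬ n < m := by
            intro n m hn han hm ham hnm
            obtain ⟨y, hy, hy'⟩ := key n m i hnm ⟨a, haK, han⟩
            rcases hatom.le_iff.1 (show cls (cb B γ) (a ⊓ y) ≤ cls (cb B γ) a from by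
              rw [cls_le]; exact sdiff_mem_of_le _ inf_le_left) with h | h
            · rw [cls_eq_bot] at h
              exact hI n hn _ h (((hp n i).inf_iff a y).2 ⟨han, hy⟩)
            · have h1 : a \ (a ⊓ y) ∈ cb B γ := symm_right (cls_eq.1 h)
              have h2 := (hp m i).sdiff ham (hI m hm _ h1)
              exact hy' (((hp m i).inf_iff a y).1 h2).2
          refine Set.Subsingleton.finite ?_
          intro n hn m hm
          rcases lt_trichotomy n m with h | h | h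
          · exact absurd h (hlt n m hn.1 hn.2 hm.1 hm.2)
          · exact h
          · exact absurd h (hlt m n hm.1 hm.2 hn.1 hn.2)
      obtain ⟨a, ha, hafin⟩ := hex
      have hxfin : {n | x ∈ p n i}.Finite := by
        refine ((finite_Iio N0).union hafin).subset ?_
        intro n hn
        rcases lt_or_ge n N0 with h | h
        · exact Or.inl h
        · refine Or.inr ⟨h, ?_⟩
          exact (hp n i).sdiff hn (hI n h _ (symm_right (cls_eq.1 ha)))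
      exact notMem_hyperfilter_of_finite hxfin hxU
  · intro i e he heU
    obtain ⟨n, hn⟩ := Eventually.exists heU
    exact hP3 n (F n) i e (hFm (Nat.zero_le n) he) hn
  · choose g hg using fun n => hP4 n (F n)
    obtain ⟨γ, hγ⟩ := countable_bdd (countable_range g)
    refine ⟨γ, fun ζ hζ => ?_⟩
    by_contra hcon
    push Not at hcon
    have h1 : ∀ i, ∀ᶠ n in (U : Filter ℕ), b ζ ∉ p n i := fun i => by
      rw [Ultrafilter.eventually_not]
      exact hcon i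
    obtain ⟨n, hn⟩ := Eventually.exists (eventually_all.2 h1)
    obtain ⟨i, hi⟩ := hg n ζ ((hγ _ ⟨n, rfl⟩).trans hζ)
    exact hn i hi

/-- The base case. -/
theorem cc_zero {α : Ordinal.{0}} {N : ℕ} {b : Om → B} (hc : ∀ x ∈ cb B α, (Iic x).Countable)
    (t : Om → Finset B) (hN : ∀ ξ, (t ξ).card = N) (hatom : ∀ ξ, ∀ a ∈ t ξ, IsAtom a)
    (hdisj : ∀ ξ ζ, ξ ≠ ζ → ∀ a ∈ t ξ, a ∉ t ζ)
    (H : ∀ ξ ζ, ξ < ζ → ∃ a ∈ t ξ, a ≤ b ζ) : CC α N b 0 := by
  intro E hE hEK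
  have hZ : (⋃ e ∈ E, Iic e).Countable := hE.biUnion fun e he => hc e (hEK e he)
  obtain ⟨ξ, hξ⟩ : ∃ ξ, ∀ a ∈ t ξ, a ∉ ⋃ e ∈ E, Iic e := by
    by_contra hcon
    push Not at hcon
    choose z hz1 hz2 using hcon
    have hinj : Function.Injective (fun ξ => (⟨z ξ, hz2 ξ⟩ : (⋃ e ∈ E, Iic e : Set B))) := by
      intro ξ ζ h
      by_contra hne
      have h1 : z ξ = z ζ := congrArg Subtype.val h
      exact hdisj ξ ζ hne (z ξ) (hz1 ξ) (h1 ▸ hz1 ζ)
    have := hZ.to_subtype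
    exact not_countable (α := Om) hinj.countable
  have e : Fin N ≃ t ξ := ((t ξ).equivFinOfCardEq (hN ξ)).symm
  have hat : ∀ i, IsAtom (e i).1 := fun i => hatom ξ _ (e i).2
  refine ⟨fun i => {x | (e i).1 ≤ x}, fun i => ⟨fun x y => le_inf_iff, fun x =>
    atom_le_compl_iff (hat i)⟩, fun i x hx h => ?_, fun i x hx h => ?_, ξ, fun ζ hζ => ?_⟩
  · rw [mem_cb_zero] at hx
    rw [hx] at h
    exact (hat i).1 (le_bot_iff.1 h)
  · exact hξ _ (e i).2 (mem_iUnion₂.2 ⟨x, hx, h⟩)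
  · obtain ⟨a, ha, hab⟩ := H ξ ζ hζ
    refine ⟨e.symm ⟨a, ha⟩, ?_⟩
    change (e (e.symm ⟨a, ha⟩)).1 ≤ b ζ
    rw [Equiv.apply_symm_apply]
    exact hab

/-- The key combinatorial fact. -/
theorem no_pattern {α : Ordinal.{0}} (hα : α < (Cardinal.aleph 1).ord) {N : ℕ} {b : Om → B}
    (hb : ∀ ζ, b ζ ∈ cb B α) (hc : ∀ x ∈ cb B α, (Iic x).Countable)
    (t : Om → Finset B) (hN : ∀ ξ, (t ξ).card = N) (hatom : ∀ ξ, ∀ a ∈ t ξ, IsAtom a)
    (hdisj : ∀ ξ ζ, ξ ≠ ζ → ∀ a ∈ t ξ, a ∉ t ζ)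
    (H : ∀ ξ ζ, ξ < ζ → ∃ a ∈ t ξ, a ≤ b ζ) : False := by
  have h1 : ∀ β : Ordinal.{0}, β ≤ α → CC α N b β := by
    intro β
    induction β using WellFoundedLT.induction with
    | ind β ih =>
      intro hβ
      rcases eq_or_ne β 0 with rfl | h0
      · exact cc_zero hc t hN hatom hdisj H
      · exact cc_step (pos_iff_ne_zero.2 h0) hβ (Iio_ord_countable (hβ.trans_lt hα))
          fun γ hγ => ih γ hγ (hγ.le.trans hβ)
  obtain ⟨p, _, hp, _, γ, hγ⟩ := h1 α le_rfl ∅ countable_empty (by simp)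
  obtain ⟨ζ, hζ⟩ := exists_gt' γ
  obtain ⟨i, hi⟩ := hγ ζ hζ
  exact hp i _ (hb ζ) hi

end Pool.Agent.W876.Cut
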